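import Pool.Agent.H372Z.BH.Ineq
import Pool.Agent.H562R2.Walsh

/-! Walsh polynomials: hypercontractive projection bounds and the Markov bound for levels. -/

set_option autoImplicit false
set_option linter.unusedSectionVars false

namespace Pool.Agent.H372Z.BH

open Finset Pool.Agent.H562R2

variable {X : Type} [Fintype X] [DecidableEq X]

/-- The Walsh polynomial with given coefficients. -/
noncomputable def ev (c : Finset X → ℝ) (x : X → Bool) : ℝ := ∑ S, c S * walsh S x

/-- Degree at most `d`. -/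
def Deg (c : Finset X → ℝ) (d : ℕ) : Prop := ∀ S : Finset X, d < S.card → c S = 0

/-- Bounded by `M` on the cube. -/
def Bdd (c : Finset X → ℝ) (M : ℝ) : Prop := ∀ x, |ev c x| ≤ M

/-- The number of points of the cube. -/
noncomputable def NN (X : Type) [Fintype X] : ℝ := (2 : ℝ) ^ Fintype.card X

theorem NN_pos : 0 < NN X := by unfold NN; positivity

theorem card_cube : ((Finset.univ : Finset (X → Bool)).card : ℝ) = NN X := by
  simp [NN]

theorem sum_ev_mul (b c : Finset X → ℝ) : ∑ x, ev b x * ev c x = NN X * ∑ S, b S * c S := by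
  have h : ∀ x, ev b x * ev c x = ∑ S, ∑ T, b S * c T * (walsh S x * walsh T x) := by
    intro x
    rw [ev, ev, Finset.sum_mul_sum]
    exact Finset.sum_congr rfl fun S _ => Finset.sum_congr rfl fun T _ => by ring
  simp only [h]
  rw [Finset.sum_comm, Finset.mul_sum]
  refine Finset.sum_congr rfl fun S _ => ?_
  rw [Finset.sum_comm]
  simp only [← Finset.mul_sum, walsh_orth]
  simp only [mul_ite, mul_zero, Finset.sum_ite_eq, Finset.mem_univ, if_true, NN]
  ring

theorem sum_ev_sq (b : Finset X → ℝ) : ∑ x, ev b x ^ 2 = NN X * ∑ S, b S ^ 2 := by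
  simp only [sq]; exact sum_ev_mul b b

theorem sum_sq_le {c : Finset X → ℝ} {M : ℝ} (h : Bdd c M) : ∑ S, c S ^ 2 ≤ M ^ 2 := by
  have h1 : ∑ x, ev c x ^ 2 ≤ ∑ _x : X → Bool, M ^ 2 := Finset.sum_le_sum fun x _ => by
    rw [← sq_abs]; exact pow_le_pow_left₀ (abs_nonneg _) (h x) 2
  rw [sum_ev_sq, Finset.sum_const, nsmul_eq_mul, card_cube] at h1
  exact le_of_mul_le_mul_left h1 NN_pos

theorem bonami_deg (b : Finset X → ℝ) (m : ℕ) (hb : Deg b m) :
    ∑ x, ev b x ^ 4 ≤ NN X * (9 ^ m * (∑ S, b S ^ 2) ^ 2) := by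
  have h3 : (0 : ℝ) < Real.sqrt 3 := by positivity
  have hs : Real.sqrt 3 ^ 2 = 3 := Real.sq_sqrt (by norm_num)
  have h := bonami (Real.sqrt 3)⁻¹ (by rw [inv_pow, hs]; norm_num) (Finset.univ : Finset X)
    (fun S => Real.sqrt 3 ^ S.card * b S)
  have e : ∀ x, wpoly (Real.sqrt 3)⁻¹ (fun S => Real.sqrt 3 ^ S.card * b S) Finset.univ x =
      ev b x := by
    intro x
    rw [wpoly, Finset.powerset_univ, ev]
    refine Finset.sum_congr rfl fun S _ => ?_
    rw [inv_pow, ← mul_assoc, inv_mul_cancel₀ (by positivity), one_mul]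
  simp only [e] at h
  rw [div_le_iff₀ (by positivity), Finset.powerset_univ] at h
  refine h.trans ?_
  rw [mul_comm]
  refine mul_le_mul_of_nonneg_left ?_ (NN_pos (X := X)).le
  have h2 : ∑ S : Finset X, (Real.sqrt 3 ^ S.card * b S) ^ 2 ≤ 3 ^ m * ∑ S, b S ^ 2 := by
    rw [Finset.mul_sum]
    refine Finset.sum_le_sum fun S _ => ?_
    by_cases hS : m < S.card
    · rw [hb S hS]; simp
    · rw [mul_pow, ← pow_mul, mul_comm S.card 2, pow_mul, hs]
      exact mul_le_mul_of_nonneg_right (pow_le_pow_right₀ (by norm_num) (by omega)) (sq_nonneg _)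
  calc _ ≤ (3 ^ m * ∑ S, b S ^ 2) ^ 2 :=
        pow_le_pow_left₀ (Finset.sum_nonneg fun _ _ => sq_nonneg _) h2 2
    _ = _ := by rw [mul_pow, ← pow_mul, mul_comm m 2, pow_mul]; norm_num

/-- The projection bound at level `i` for polynomials of degree at most `d`. -/
def Hyp (X : Type) [Fintype X] [DecidableEq X] (d i : ℕ) : Prop :=
  ∀ b : Finset X → ℝ, Deg b d →
    NN X * (∑ U ∈ Finset.univ.filter (fun U : Finset X => U.card ≤ 3 * i), b U ^ 2) ^ rr i ≤
      729 * ∑ y, (ev b y ^ 2) ^ rr i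

theorem sq_rpow_half (t : ℝ) : (t ^ 2) ^ (1 / 2 : ℝ) = |t| := by
  rw [← Real.sqrt_eq_rpow, Real.sqrt_sq_eq_abs]

theorem hyp_two (d i : ℕ) (hi : 2 ≤ i) : Hyp X d i := by
  intro b _
  have hi0 : (2 : ℝ) ≤ i := by exact_mod_cast hi
  have hN := NN_pos (X := X)
  set u : Finset X → ℝ := fun U => if U.card ≤ 3 * i then b U else 0 with hu
  set W : ℝ := ∑ U ∈ Finset.univ.filter (fun U : Finset X => U.card ≤ 3 * i), b U ^ 2 with hW
  have hW0 : 0 ≤ W := Finset.sum_nonneg fun _ _ => sq_nonneg _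
  have e1 : ∑ U, u U ^ 2 = W := by
    rw [hW, Finset.sum_filter]
    exact Finset.sum_congr rfl fun U _ => by simp only [hu]; split_ifs <;> simp
  have e2 : ∑ U, b U * u U = W := by
    rw [hW, Finset.sum_filter]
    exact Finset.sum_congr rfl fun U _ => by simp only [hu]; split_ifs <;> simp [sq]
  have hd : Deg u (3 * i) := fun U hU => by simp only [hu]; rw [if_neg (by omega)]
  have b4 := bonami_deg u _ hd
  rw [e1] at b4
  have b2 := sum_ev_sq u
  rw [e1] at b2
  set F : ℝ := ∑ y, (ev b y ^ 2) ^ rr i with hF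
  have hF0 : 0 ≤ F := Finset.sum_nonneg fun _ _ => Real.rpow_nonneg (sq_nonneg _) _
  have hr : 0 < rr i := rr_pos (by omega)
  have h3 := holder3 Finset.univ (fun y => (ev b y ^ 2) ^ rr i) (fun y => ev u y ^ 2)
    (fun y => ev u y ^ 4) (fun _ _ => Real.rpow_nonneg (sq_nonneg _) _) (fun _ _ => sq_nonneg _)
    (fun _ _ => by positivity) ((i + 1) / (2 * i)) ((i - 2) / (2 * i)) (1 / (2 * i))
    (by positivity) (div_nonneg (by linarith) (by positivity)) (by positivity)
    (by field_simp; ring) F (NN X * W) (NN X * (9 ^ (3 * i) * W ^ 2)) le_rfl b2.le b4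
  have e3 : ∀ y, ((ev b y ^ 2) ^ rr i) ^ ((i + 1) / (2 * i) : ℝ) *
      (ev u y ^ 2) ^ ((i - 2) / (2 * i) : ℝ) * (ev u y ^ 4) ^ (1 / (2 * i) : ℝ) =
      |ev b y| * |ev u y| := by
    intro y
    rw [← Real.rpow_mul (sq_nonneg _), show rr i * ((i + 1) / (2 * i)) = 1 / 2 by
      unfold rr; field_simp, sq_rpow_half, mul_assoc,
      show ev u y ^ 4 = (ev u y ^ 2) ^ (2 : ℝ) by rw [Real.rpow_two]; ring,
      ← Real.rpow_mul (sq_nonneg _), ← Real.rpow_add' (sq_nonneg _) (by
        rw [show ((i - 2) / (2 * i) + 2 * (1 / (2 * i)) : ℝ) = 1 / 2 by field_simp; ring]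
        norm_num),
      show ((i - 2) / (2 * i) + 2 * (1 / (2 * i)) : ℝ) = 1 / 2 by field_simp; ring, sq_rpow_half]
  simp only [e3] at h3
  have h4 : NN X * W ≤ ∑ y, |ev b y| * |ev u y| := by
    rw [← e2, ← sum_ev_mul]
    exact Finset.sum_le_sum fun y _ => by rw [← abs_mul]; exact le_abs_self _
  rcases hW0.eq_or_lt with h0 | hpos
  · rw [← h0, Real.zero_rpow hr.ne', mul_zero]; positivity
  have e4 : F ^ ((i + 1) / (2 * i) : ℝ) * (NN X * W) ^ ((i - 2) / (2 * i) : ℝ) *
      (NN X * (9 ^ (3 * i) * W ^ 2)) ^ (1 / (2 * i) : ℝ) =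
      27 * F ^ ((i + 1) / (2 * i) : ℝ) * (NN X ^ ((i - 1) / (2 * i) : ℝ) * W ^ (1 / 2 : ℝ)) := by
    have a1 : ((9 : ℝ) ^ (3 * i)) ^ (1 / (2 * i) : ℝ) = 27 := by
      rw [show (9 : ℝ) ^ (3 * i) = 27 ^ (2 * i) by
        rw [pow_mul, pow_mul]; norm_num, ← Real.rpow_natCast, ← Real.rpow_mul (by norm_num)]
      push_cast
      rw [mul_one_div_cancel (by positivity), Real.rpow_one]
    have a2 : NN X ^ ((i - 2) / (2 * i) : ℝ) * NN X ^ (1 / (2 * i) : ℝ) =
        NN X ^ ((i - 1) / (2 * i) : ℝ) := by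
      rw [← Real.rpow_add hN]; congr 1; field_simp; ring
    have a3 : W ^ ((i - 2) / (2 * i) : ℝ) * (W ^ 2) ^ (1 / (2 * i) : ℝ) = W ^ (1 / 2 : ℝ) := by
      rw [← Real.rpow_natCast, ← Real.rpow_mul hW0, ← Real.rpow_add hpos]
      congr 1; push_cast; field_simp; ring
    rw [Real.mul_rpow hN.le hW0, Real.mul_rpow hN.le (by positivity),
      Real.mul_rpow (by positivity) (sq_nonneg _), a1, ← a2, ← a3]
    ring
  rw [e4] at h3
  have h5 : NN X ^ ((i + 1) / (2 * i) : ℝ) * W ^ (1 / 2 : ℝ) ≤ 27 * F ^ ((i + 1) / (2 * i) : ℝ) := by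
    have hp : 0 < NN X ^ ((i - 1) / (2 * i) : ℝ) * W ^ (1 / 2 : ℝ) := by positivity
    refine le_of_mul_le_mul_right ?_ hp
    refine le_trans (le_of_eq ?_) (h4.trans h3)
    have a1 : NN X ^ ((i + 1) / (2 * i) : ℝ) * NN X ^ ((i - 1) / (2 * i) : ℝ) = NN X := by
      rw [← Real.rpow_add hN, show ((i + 1) / (2 * i) + (i - 1) / (2 * i) : ℝ) = 1 by
        field_simp; ring, Real.rpow_one]
    have a2 : W ^ (1 / 2 : ℝ) * W ^ (1 / 2 : ℝ) = W := by
      rw [← Real.rpow_add hpos]; norm_num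
    calc _ = (NN X ^ ((i + 1) / (2 * i) : ℝ) * NN X ^ ((i - 1) / (2 * i) : ℝ)) *
          (W ^ (1 / 2 : ℝ) * W ^ (1 / 2 : ℝ)) := by ring
      _ = _ := by rw [a1, a2]
  have h6 := Real.rpow_le_rpow (by positivity) h5 (show 0 ≤ 2 * rr i by positivity)
  have a4 : ((i + 1) / (2 * i) : ℝ) * (2 * rr i) = 1 := by unfold rr; field_simp
  rw [Real.mul_rpow (by positivity) (by positivity), Real.mul_rpow (by positivity) (by positivity),
    ← Real.rpow_mul hN.le, ← Real.rpow_mul hW0, ← Real.rpow_mul hF0, a4, Real.rpow_one,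
    Real.rpow_one, show 1 / 2 * (2 * rr i) = rr i by ring] at h6
  refine h6.trans (mul_le_mul_of_nonneg_right ?_ hF0)
  calc (27 : ℝ) ^ (2 * rr i) ≤ 27 ^ (2 : ℝ) :=
        Real.rpow_le_rpow_of_exponent_le (by norm_num) (by linarith [rr_le i])
    _ = 729 := by rw [Real.rpow_two]; norm_num

theorem hyp_one : Hyp X 4 1 := by
  intro b hb
  have hN := NN_pos (X := X)
  set V : ℝ := ∑ U, b U ^ 2 with hV
  have hV0 : 0 ≤ V := Finset.sum_nonneg fun _ _ => sq_nonneg _
  have r1 : rr 1 = 1 / 2 := by unfold rr; norm_num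
  simp only [r1, sq_rpow_half]
  set F : ℝ := ∑ y, |ev b y| with hF
  have hF0 : 0 ≤ F := Finset.sum_nonneg fun _ _ => abs_nonneg _
  have b4 := bonami_deg b 4 hb
  have b2 := sum_ev_sq b
  rw [← hV] at b2 b4
  have h2 := holder2 Finset.univ (fun y => |ev b y|) (fun y => ev b y ^ 4)
    (fun _ _ => abs_nonneg _) (fun _ _ => by positivity) (2 / 3) (by norm_num) (by norm_num)
    F _ le_rfl b4
  have e : ∀ y, |ev b y| ^ (2 / 3 : ℝ) * (ev b y ^ 4) ^ (1 - 2 / 3 : ℝ) = ev b y ^ 2 := by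
    intro y
    rw [show ev b y ^ 4 = |ev b y| ^ (4 : ℝ) by
      rw [show (4 : ℝ) = (4 : ℕ) by norm_num, Real.rpow_natCast, ← abs_pow,
        abs_of_nonneg (by positivity)],
      ← Real.rpow_mul (abs_nonneg _), ← Real.rpow_add' (abs_nonneg _) (by norm_num),
      show (2 / 3 + 4 * (1 - 2 / 3) : ℝ) = (2 : ℕ) by norm_num, Real.rpow_natCast, sq_abs]
  simp only [e] at h2
  rw [b2] at h2
  have h3 := pow_le_pow_left₀ (by positivity) h2 3
  rw [mul_pow (F ^ (2 / 3 : ℝ)), ← Real.rpow_natCast (F ^ (2 / 3 : ℝ)), ← Real.rpow_mul hF0,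
    ← Real.rpow_natCast (_ ^ (1 - 2 / 3 : ℝ)), ← Real.rpow_mul (by positivity),
    show (2 / 3 * ((3 : ℕ) : ℝ)) = (2 : ℕ) by norm_num, Real.rpow_natCast,
    show ((1 - 2 / 3) * ((3 : ℕ) : ℝ)) = 1 by norm_num, Real.rpow_one] at h3
  have h4 : NN X ^ 2 * V ≤ (81 * F) ^ 2 := by
    rcases hV0.eq_or_lt with h0 | hpos
    · rw [← h0, mul_zero]; positivity
    · have hp : 0 < NN X * V ^ 2 := by positivity
      refine le_of_mul_le_mul_right ?_ hp
      nlinarith
  have h5 : (∑ U ∈ Finset.univ.filter (fun U : Finset X => U.card ≤ 3 * 1), b U ^ 2) ≤ V :=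
    Finset.sum_le_sum_of_subset_of_nonneg (Finset.filter_subset _ _) fun _ _ _ => sq_nonneg _
  have h6 : NN X * V ^ (1 / 2 : ℝ) ≤ 81 * F := by
    refine abs_le_of_sq_le_sq' ?_ (by positivity) |>.2
    rw [mul_pow, ← Real.sqrt_eq_rpow, Real.sq_sqrt hV0]
    exact h4
  have h7 := Real.rpow_le_rpow (Finset.sum_nonneg fun _ _ => sq_nonneg _) h5
    (show (0 : ℝ) ≤ 1 / 2 by norm_num)
  nlinarith

/-- The noise operator is a contraction. -/
theorem noise_bound {c : Finset X → ℝ} {M : ℝ} (h : Bdd c M) (x : X → Bool) (t : ℝ)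
    (ht : |t| ≤ 1) : |∑ S, c S * walsh S x * t ^ S.card| ≤ M := by
  obtain ⟨t1, t2⟩ := abs_le.1 ht
  set p : (X → Bool) → ℝ := fun y => ∏ i, (1 + t * sg (y i)) / 2 with hp
  have p0 : ∀ y, 0 ≤ p y := fun y => Finset.prod_nonneg fun i _ => by
    cases y i <;> simp <;> linarith
  have pw : ∀ S : Finset X, ∑ y, p y * walsh S y = t ^ S.card := by
    intro S
    simp only [hp, walsh_univ, ← Finset.prod_mul_distrib]
    rw [sum_prod_cube (fun i b => (1 + t * sg b) / 2 * (if i ∈ S then sg b else 1))]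
    have : ∀ i : X, ((1 + t * sg true) / 2 * (if i ∈ S then sg true else 1) +
        (1 + t * sg false) / 2 * (if i ∈ S then sg false else 1)) = if i ∈ S then t else 1 := by
      intro i
      split_ifs <;> simp <;> ring
    simp only [this]
    rw [Finset.prod_ite_mem, Finset.univ_inter, Finset.prod_const]
  have p1 : ∑ y, p y = 1 := by simpa using pw ∅
  have e : ∑ S, c S * walsh S x * t ^ S.card = ∑ y, p y * ev c (fun i => xor (x i) (y i)) := by
    simp only [ev, Finset.mul_sum, walsh_xor]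
    rw [Finset.sum_comm]
    refine Finset.sum_congr rfl fun S _ => ?_
    rw [← pw S, Finset.mul_sum]
    exact Finset.sum_congr rfl fun y _ => by ring
  rw [e]
  refine (Finset.abs_sum_le_sum_abs _ _).trans ?_
  calc ∑ y, |p y * ev c fun i => xor (x i) (y i)| ≤ ∑ y, p y * M :=
        Finset.sum_le_sum fun y _ => by
          rw [abs_mul, abs_of_nonneg (p0 y)]
          exact mul_le_mul_of_nonneg_left (h _) (p0 y)
    _ = M := by rw [← Finset.sum_mul, p1, one_mul]

/-- The level `k` part. -/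
def lev (k : ℕ) (c : Finset X → ℝ) : Finset X → ℝ := fun S => if S.card = k then c S else 0

open Polynomial in
theorem markov_one {c : Finset X → ℝ} {d : ℕ} (hd : Deg c d) (h : Bdd c 1) (k : ℕ)
    (x : X → Bool) : ev (lev k c) x ≤ 2 ^ k * ((d : ℝ) + k) ^ (2 * k) := by
  set Q : ℝ[X] := ∑ S : Finset X, C (c S * walsh S x / 2 ^ S.card) *
    (Polynomial.X - C 1) ^ S.card with hQ
  have hdeg : Q.degree ≤ d := by
    refine (Polynomial.degree_sum_le _ _).trans (Finset.sup_le fun S _ => ?_)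
    by_cases hS : d < S.card
    · rw [hd S hS]; simp
    · refine (Polynomial.degree_mul_le _ _).trans ?_
      refine (add_le_add Polynomial.degree_C_le (Polynomial.degree_pow_le _ _)).trans ?_
      rw [Polynomial.degree_X_sub_C, zero_add, nsmul_eq_mul, mul_one]
      exact_mod_cast not_lt.1 hS
  have hb : ∀ s ∈ Set.Icc (-1 : ℝ) 1, |Q.eval s| ≤ 1 := by
    intro s hs
    have := noise_bound h x ((s - 1) / 2) (abs_le.2 ⟨by linarith [hs.1], by linarith [hs.2]⟩)
    convert this using 2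
    rw [hQ, Polynomial.eval_finsetSum]
    refine Finset.sum_congr rfl fun S _ => ?_
    simp only [eval_mul, eval_C, eval_pow, eval_sub, eval_X, div_pow]
    ring
  have h1 := Polynomial.Chebyshev.eval_iterate_derivative_le_of_forall_abs_le_one (k := k)
    (le_refl (1 : ℝ)) hdeg hb
  have h2 : (derivative^[k] Q).eval 1 = ev (lev k c) x / 2 ^ k * k.factorial := by
    rw [hQ, Polynomial.iterate_derivative_sum, Polynomial.eval_finsetSum, ev, Finset.sum_div,
      Finset.sum_mul]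
    refine Finset.sum_congr rfl fun S _ => ?_
    rw [Polynomial.iterate_derivative_C_mul, Polynomial.iterate_derivative_X_sub_pow]
    simp only [eval_mul, eval_C, eval_smul, eval_pow, eval_sub, eval_X, sub_self, lev]
    by_cases hS : S.card = k
    · rw [if_pos hS, hS, Nat.sub_self, pow_zero, Nat.descFactorial_self]; simp
    · rw [if_neg hS]
      rcases lt_or_gt_of_ne hS with h3 | h3
      · rw [Nat.descFactorial_eq_zero_iff_lt.2 h3]; simp
      · rw [zero_pow (by omega)]; simp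
  have h3 := Polynomial.Chebyshev.iterate_derivative_T_eval_one (R := ℝ) (d : ℤ) k
  set τ := (derivative^[k] (Polynomial.Chebyshev.T ℝ (d : ℤ))).eval 1 with hτ
  have h4 : |τ| ≤ ((d : ℝ) + k) ^ (2 * k) := by
    have a1 : (1 : ℝ) ≤ ((∏ l ∈ Finset.range k, (2 * l + 1) : ℕ) : ℝ) := by
      exact_mod_cast Finset.one_le_prod' fun l _ => by omega
    have a2 : |((∏ l ∈ Finset.range k, ((d : ℤ) ^ 2 - (l : ℤ) ^ 2) : ℤ) : ℝ)| ≤
        ((d : ℝ) + k) ^ (2 * k) := by
      push_cast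
      rw [Finset.abs_prod, pow_mul]
      refine (Finset.prod_le_prod (fun _ _ => abs_nonneg _) (g := fun _ => ((d : ℝ) + k) ^ 2)
        fun l hl => ?_).trans (by simp)
      have : (l : ℝ) ≤ k := by exact_mod_cast (Finset.mem_range.1 hl).le
      have l0 : (0 : ℝ) ≤ l := by positivity
      have d0 : (0 : ℝ) ≤ d := by positivity
      exact abs_le.2 ⟨by nlinarith, by nlinarith⟩
    rw [← h3, abs_mul, abs_of_nonneg (by linarith)] at a2
    nlinarith [abs_nonneg τ]
  have h5 : (1 : ℝ) ≤ k.factorial := by exact_mod_cast k.factorial_pos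
  rw [h2] at h1
  have h6 : ev (lev k c) x / 2 ^ k ≤ ((d : ℝ) + k) ^ (2 * k) := by
    by_cases h0 : 0 ≤ ev (lev k c) x / 2 ^ k
    · nlinarith [le_abs_self τ]
    · exact (not_le.1 h0).le.trans (by positivity)
  rw [div_le_iff₀ (by positivity)] at h6
  linarith

theorem markov {c : Finset X → ℝ} {d : ℕ} {M : ℝ} (hM : 0 < M) (hd : Deg c d) (h : Bdd c M)
    (k : ℕ) : Bdd (lev k c) (2 ^ k * ((d : ℝ) + k) ^ (2 * k) * M) := by
  intro x
  have key : ∀ e : ℝ, |e| = 1 → e * ev (lev k c) x ≤ 2 ^ k * ((d : ℝ) + k) ^ (2 * k) * M := by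
    intro e he
    have s1 : ∀ (b : Finset X → ℝ) y, ev (fun S => e / M * b S) y = e / M * ev b y := by
      intro b y
      simp only [ev, Finset.mul_sum, mul_assoc]
    have := markov_one (c := fun S => e / M * c S) (d := d) (fun S hS => by simp [hd S hS])
      (fun y => by
        rw [s1, abs_mul, abs_div, he, abs_of_pos hM, div_mul_eq_mul_div, one_mul, div_le_one hM]
        exact h y) k x
    have s2 : lev k (fun S => e / M * c S) = fun S => e / M * lev k c S := by
      funext S; simp only [lev]; split_ifs <;> simp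
    rw [s2, s1, div_mul_eq_mul_div, div_le_iff₀ hM] at this
    exact this
  have h1 := key 1 abs_one
  have h2 := key (-1) (by simp)
  exact abs_le.2 ⟨by linarith, by linarith⟩

end Pool.Agent.H372Z.BH
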