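import Mathlib

/-! Finite Hoelder type inequalities. -/

set_option autoImplicit false

namespace Pool.Agent.H372Z.BH

open Finset

theorem holder3_pos {ι : Type} (s : Finset ι) (f g h : ι → ℝ) (hf : ∀ i ∈ s, 0 ≤ f i)
    (hg : ∀ i ∈ s, 0 ≤ g i) (hh : ∀ i ∈ s, 0 ≤ h i) (α β γ : ℝ) (hα : 0 ≤ α) (hβ : 0 ≤ β)
    (hγ : 0 ≤ γ) (h1 : α + β + γ = 1) (F G H : ℝ) (hF : 0 < F) (hG : 0 < G) (hH : 0 < H)
    (sF : ∑ i ∈ s, f i ≤ F) (sG : ∑ i ∈ s, g i ≤ G) (sH : ∑ i ∈ s, h i ≤ H) :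
    ∑ i ∈ s, f i ^ α * g i ^ β * h i ^ γ ≤ F ^ α * G ^ β * H ^ γ := by
  have hP : 0 < F ^ α * G ^ β * H ^ γ := by positivity
  have key : ∀ i ∈ s, f i ^ α * g i ^ β * h i ^ γ ≤
      (F ^ α * G ^ β * H ^ γ) * (α * (f i / F) + β * (g i / G) + γ * (h i / H)) := by
    intro i hi
    have := Real.geom_mean_le_arith_mean3_weighted hα hβ hγ (div_nonneg (hf i hi) hF.le)
      (div_nonneg (hg i hi) hG.le) (div_nonneg (hh i hi) hH.le) h1
    rw [Real.div_rpow (hf i hi) hF.le, Real.div_rpow (hg i hi) hG.le,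
      Real.div_rpow (hh i hi) hH.le, div_mul_div_comm, div_mul_div_comm, div_le_iff₀ hP] at this
    linarith
  refine (Finset.sum_le_sum key).trans ?_
  rw [← Finset.mul_sum, Finset.sum_add_distrib, Finset.sum_add_distrib, ← Finset.mul_sum,
    ← Finset.mul_sum, ← Finset.mul_sum, ← Finset.sum_div, ← Finset.sum_div, ← Finset.sum_div]
  have a1 : (∑ i ∈ s, f i) / F ≤ 1 := (div_le_one hF).2 sF
  have a2 : (∑ i ∈ s, g i) / G ≤ 1 := (div_le_one hG).2 sG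
  have a3 : (∑ i ∈ s, h i) / H ≤ 1 := (div_le_one hH).2 sH
  have : α * ((∑ i ∈ s, f i) / F) + β * ((∑ i ∈ s, g i) / G) + γ * ((∑ i ∈ s, h i) / H) ≤ 1 := by
    nlinarith [mul_le_mul_of_nonneg_left a1 hα, mul_le_mul_of_nonneg_left a2 hβ,
      mul_le_mul_of_nonneg_left a3 hγ]
  nlinarith

theorem aux_fix {ι : Type} (s : Finset ι) (f : ι → ℝ) (hf : ∀ i ∈ s, 0 ≤ f i) (α F : ℝ)
    (sF : ∑ i ∈ s, f i ≤ F) :
    (∀ i ∈ s, f i ^ α = 0) ∨ ∃ F' : ℝ, 0 < F' ∧ ∑ i ∈ s, f i ≤ F' ∧ F' ^ α = F ^ α := by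
  have h0 : 0 ≤ ∑ i ∈ s, f i := Finset.sum_nonneg hf
  rcases (h0.trans sF).eq_or_lt with h | h
  · by_cases hα : α = 0
    · right
      exact ⟨1, one_pos, by linarith, by simp [hα]⟩
    · left
      intro i hi
      have : f i = 0 := (Finset.sum_eq_zero_iff_of_nonneg hf).1 (by linarith) i hi
      rw [this, Real.zero_rpow hα]
  · exact Or.inr ⟨F, h, sF, rfl⟩

/-- Hoelder's inequality for three functions. -/
theorem holder3 {ι : Type} (s : Finset ι) (f g h : ι → ℝ) (hf : ∀ i ∈ s, 0 ≤ f i)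
    (hg : ∀ i ∈ s, 0 ≤ g i) (hh : ∀ i ∈ s, 0 ≤ h i) (α β γ : ℝ) (hα : 0 ≤ α) (hβ : 0 ≤ β)
    (hγ : 0 ≤ γ) (h1 : α + β + γ = 1) (F G H : ℝ)
    (sF : ∑ i ∈ s, f i ≤ F) (sG : ∑ i ∈ s, g i ≤ G) (sH : ∑ i ∈ s, h i ≤ H) :
    ∑ i ∈ s, f i ^ α * g i ^ β * h i ^ γ ≤ F ^ α * G ^ β * H ^ γ := by
  have hF : 0 ≤ F := (Finset.sum_nonneg hf).trans sF
  have hG : 0 ≤ G := (Finset.sum_nonneg hg).trans sG
  have hH : 0 ≤ H := (Finset.sum_nonneg hh).trans sH
  have hP : 0 ≤ F ^ α * G ^ β * H ^ γ := by positivity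
  rcases aux_fix s f hf α F sF with z | ⟨F', p1, s1, e1⟩
  · rw [Finset.sum_eq_zero fun i hi => by rw [z i hi]; ring]; exact hP
  rcases aux_fix s g hg β G sG with z | ⟨G', p2, s2, e2⟩
  · rw [Finset.sum_eq_zero fun i hi => by rw [z i hi]; ring]; exact hP
  rcases aux_fix s h hh γ H sH with z | ⟨H', p3, s3, e3⟩
  · rw [Finset.sum_eq_zero fun i hi => by rw [z i hi]; ring]; exact hP
  rw [← e1, ← e2, ← e3]
  exact holder3_pos s f g h hf hg hh α β γ hα hβ hγ h1 F' G' H' p1 p2 p3 s1 s2 s3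

/-- Hoelder's inequality for two functions. -/
theorem holder2 {ι : Type} (s : Finset ι) (f g : ι → ℝ) (hf : ∀ i ∈ s, 0 ≤ f i)
    (hg : ∀ i ∈ s, 0 ≤ g i) (α : ℝ) (hα : 0 ≤ α) (hα1 : α ≤ 1) (F G : ℝ)
    (sF : ∑ i ∈ s, f i ≤ F) (sG : ∑ i ∈ s, g i ≤ G) :
    ∑ i ∈ s, f i ^ α * g i ^ (1 - α) ≤ F ^ α * G ^ (1 - α) := by
  have := holder3 s f g g hf hg hg α (1 - α) 0 hα (by linarith) le_rfl (by ring) F G G sF sG sG
  simpa using this

/-- Power mean inequality. -/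
theorem powmean {ι : Type} (s : Finset ι) (f : ι → ℝ) (hf : ∀ i ∈ s, 0 ≤ f i)
    (r : ℝ) (hr : 0 ≤ r) (hr1 : r ≤ 1) (F N : ℝ) (sF : ∑ i ∈ s, f i ≤ F) (hN : (s.card : ℝ) ≤ N) :
    ∑ i ∈ s, f i ^ r ≤ F ^ r * N ^ (1 - r) := by
  have := holder2 s f (fun _ => 1) hf (fun _ _ => zero_le_one) r hr hr1 F N sF (by simpa using hN)
  simpa using this

theorem rpow_inv_le {x y r : ℝ} (hx : 0 ≤ x) (hy : 0 ≤ y) (hr : 0 < r) (h : x ≤ y ^ r) :
    x ^ r⁻¹ ≤ y := by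
  calc x ^ r⁻¹ ≤ (y ^ r) ^ r⁻¹ := Real.rpow_le_rpow hx h (by positivity)
    _ = y := Real.rpow_rpow_inv hy hr.ne'

theorem mul_rpow_sub_one {W r : ℝ} (hW : 0 ≤ W) (hr : 0 < r) : W * W ^ (r - 1) = W ^ r := by
  rcases hW.eq_or_lt with h | h
  · rw [← h, zero_mul, Real.zero_rpow hr.ne']
  · rw [Real.rpow_sub_one h.ne']; field_simp

/-- Reverse Minkowski inequality. -/
theorem revmink {ι κ : Type} (s : Finset ι) (t : Finset κ) (w : ι → κ → ℝ)
    (hw : ∀ i k, 0 ≤ w i k) (r : ℝ) (hr : 0 < r) (hr1 : r ≤ 1) :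
    ∑ k ∈ t, (∑ i ∈ s, w i k ^ r) ^ r⁻¹ ≤ (∑ i ∈ s, (∑ k ∈ t, w i k) ^ r) ^ r⁻¹ := by
  set W : ι → ℝ := fun i => ∑ k ∈ t, w i k with hW
  have hW0 : ∀ i, 0 ≤ W i := fun i => Finset.sum_nonneg fun k _ => hw i k
  set Z : ℝ := ∑ i ∈ s, W i ^ r with hZ
  have hZ0 : 0 ≤ Z := Finset.sum_nonneg fun i _ => Real.rpow_nonneg (hW0 i) _
  have key : ∀ k ∈ t, (∑ i ∈ s, w i k ^ r) ^ r⁻¹ ≤
      (∑ i ∈ s, w i k * W i ^ (r - 1)) * Z ^ (r⁻¹ - 1) := by
    intro k hk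
    have n1 : ∀ i ∈ s, 0 ≤ w i k * W i ^ (r - 1) := fun i _ =>
      mul_nonneg (hw i k) (Real.rpow_nonneg (hW0 i) _)
    have h2 := holder2 s (fun i => w i k * W i ^ (r - 1)) (fun i => W i ^ r) n1
      (fun i _ => Real.rpow_nonneg (hW0 i) _) r hr.le hr1 _ Z le_rfl le_rfl
    have e : ∀ i ∈ s, w i k ^ r = (w i k * W i ^ (r - 1)) ^ r * (W i ^ r) ^ (1 - r) := by
      intro i _
      rcases (hW0 i).eq_or_lt with h | h
      · have : w i k = 0 := (Finset.sum_eq_zero_iff_of_nonneg fun k _ => hw i k).1 h.symm k hk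
        rw [this, zero_mul, Real.zero_rpow hr.ne', zero_mul]
      · rw [Real.mul_rpow (hw i k) (Real.rpow_nonneg h.le _), ← Real.rpow_mul h.le,
          ← Real.rpow_mul h.le, mul_assoc, ← Real.rpow_add h,
          show (r - 1) * r + r * (1 - r) = 0 by ring, Real.rpow_zero, mul_one]
    refine rpow_inv_le (Finset.sum_nonneg fun i _ => Real.rpow_nonneg (hw i k) _)
      (mul_nonneg (Finset.sum_nonneg n1) (Real.rpow_nonneg hZ0 _)) hr ?_
    rw [Finset.sum_congr rfl e, Real.mul_rpow (Finset.sum_nonneg n1) (Real.rpow_nonneg hZ0 _),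
      ← Real.rpow_mul hZ0, show (r⁻¹ - 1) * r = 1 - r by field_simp]
    exact h2
  refine (Finset.sum_le_sum key).trans (le_of_eq ?_)
  rw [← Finset.sum_mul, Finset.sum_comm]
  have : ∀ i ∈ s, ∑ k ∈ t, w i k * W i ^ (r - 1) = W i ^ r := fun i _ => by
    rw [← Finset.sum_mul]; exact mul_rpow_sub_one (hW0 i) hr
  rw [Finset.sum_congr rfl this]
  exact mul_rpow_sub_one hZ0 (by positivity)

/-- The exponent of level `j`. -/
noncomputable def rr (j : ℕ) : ℝ := (j : ℝ) / ((j : ℝ) + 1)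

theorem rr_pos {j : ℕ} (hj : 1 ≤ j) : 0 < rr j := by
  have : (0 : ℝ) < j := by exact_mod_cast hj
  unfold rr; positivity

theorem rr_le (j : ℕ) : rr j ≤ 1 := by
  unfold rr
  rw [div_le_one (by positivity)]
  linarith

theorem rr_inv_le {j : ℕ} (hj : 1 ≤ j) : (rr j)⁻¹ ≤ 2 := by
  have : (1 : ℝ) ≤ j := by exact_mod_cast hj
  unfold rr
  rw [inv_div, div_le_iff₀ (by positivity)]
  linarith

theorem rr_mono {i j : ℕ} (h : i ≤ j) : rr i ≤ rr j := by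
  have : (i : ℝ) ≤ j := by exact_mod_cast h
  unfold rr
  rw [div_le_div_iff₀ (by positivity) (by positivity)]
  nlinarith

/-- The mixed norm inequality. -/
theorem mixed {ι κ : Type} (s : Finset ι) (t : Finset κ) (m : ι → κ → ℝ) (hm : ∀ a b, 0 ≤ m a b)
    (i k : ℕ) (hi : 1 ≤ i) (hk : 1 ≤ k) :
    (∑ a ∈ s, ∑ b ∈ t, m a b ^ rr (i + k)) ^ (rr (i + k))⁻¹ ≤
      (∑ a ∈ s, (∑ b ∈ t, m a b) ^ rr i) ^ (rr i)⁻¹ +
        (∑ b ∈ t, (∑ a ∈ s, m a b) ^ rr k) ^ (rr k)⁻¹ := by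
  have hi0 : (0 : ℝ) < i := by exact_mod_cast hi
  have hk0 : (0 : ℝ) < k := by exact_mod_cast hk
  set R : ι → ℝ := fun a => ∑ b ∈ t, m a b with hR
  set C : κ → ℝ := fun b => ∑ a ∈ s, m a b with hC
  have hR0 : ∀ a, 0 ≤ R a := fun a => Finset.sum_nonneg fun b _ => hm a b
  have hC0 : ∀ b, 0 ≤ C b := fun b => Finset.sum_nonneg fun a _ => hm a b
  set P : ℝ := ∑ a ∈ s, R a ^ rr i with hP
  set Q : ℝ := ∑ b ∈ t, C b ^ rr k with hQ
  have hP0 : 0 ≤ P := Finset.sum_nonneg fun a _ => Real.rpow_nonneg (hR0 a) _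
  have hQ0 : 0 ≤ Q := Finset.sum_nonneg fun b _ => Real.rpow_nonneg (hC0 b) _
  set X : ℝ := P ^ (rr i)⁻¹ with hX
  set Y : ℝ := Q ^ (rr k)⁻¹ with hY
  have hX0 : 0 ≤ X := Real.rpow_nonneg hP0 _
  have hY0 : 0 ≤ Y := Real.rpow_nonneg hQ0 _
  have hj : 1 ≤ i + k := by omega
  set D : ℝ := (i : ℝ) + k + 1 with hD
  have hD0 : 0 < D := by positivity
  have h3 := holder3 (s ×ˢ t) (fun p => m p.1 p.2 * R p.1 ^ (rr i - 1))
    (fun p => m p.1 p.2 * C p.2 ^ (rr k - 1)) (fun p => R p.1 ^ rr i * C p.2 ^ rr k)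
    (fun p _ => mul_nonneg (hm _ _) (Real.rpow_nonneg (hR0 _) _))
    (fun p _ => mul_nonneg (hm _ _) (Real.rpow_nonneg (hC0 _) _))
    (fun p _ => mul_nonneg (Real.rpow_nonneg (hR0 _) _) (Real.rpow_nonneg (hC0 _) _))
    (i / D) (k / D) (1 / D) (by positivity) (by positivity) (by positivity)
    (by field_simp; rw [hD]) P Q (P * Q)
    (by
      rw [Finset.sum_product]
      refine le_of_eq (Finset.sum_congr rfl fun a _ => ?_)
      simp only
      rw [← Finset.sum_mul]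
      exact mul_rpow_sub_one (hR0 a) (rr_pos hi))
    (by
      rw [Finset.sum_product_right]
      refine le_of_eq (Finset.sum_congr rfl fun b _ => ?_)
      simp only
      rw [← Finset.sum_mul]
      exact mul_rpow_sub_one (hC0 b) (rr_pos hk))
    (by rw [Finset.sum_product, hP, hQ, Finset.sum_mul_sum])
  have e : ∀ p ∈ s ×ˢ t, m p.1 p.2 ^ rr (i + k) =
      (m p.1 p.2 * R p.1 ^ (rr i - 1)) ^ (i / D) * (m p.1 p.2 * C p.2 ^ (rr k - 1)) ^ (k / D) *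
        (R p.1 ^ rr i * C p.2 ^ rr k) ^ (1 / D) := by
    rintro ⟨a, b⟩ hp
    obtain ⟨ha, hb⟩ := Finset.mem_product.1 hp
    simp only at ha hb ⊢
    rcases (hm a b).eq_or_lt with h | h
    · rw [← h, zero_mul, Real.zero_rpow (rr_pos hj).ne', Real.zero_rpow (by positivity),
        zero_mul, zero_mul]
    · have hRa : 0 < R a := h.trans_le (Finset.single_le_sum (fun b _ => hm a b) hb)
      have hCb : 0 < C b := h.trans_le (Finset.single_le_sum (fun a _ => hm a b) ha)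
      rw [Real.mul_rpow h.le (Real.rpow_nonneg hRa.le _),
        Real.mul_rpow h.le (Real.rpow_nonneg hCb.le _),
        Real.mul_rpow (Real.rpow_nonneg hRa.le _) (Real.rpow_nonneg hCb.le _),
        ← Real.rpow_mul hRa.le, ← Real.rpow_mul hRa.le, ← Real.rpow_mul hCb.le,
        ← Real.rpow_mul hCb.le]
      have e1 : m a b ^ rr (i + k) = m a b ^ (i / D) * m a b ^ (k / D) := by
        rw [← Real.rpow_add h]
        congr 1
        unfold rr
        push_cast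
        rw [hD]
        field_simp
      have e2 : R a ^ ((rr i - 1) * (i / D)) * R a ^ (rr i * (1 / D)) = 1 := by
        rw [← Real.rpow_add hRa, show (rr i - 1) * (i / D) + rr i * (1 / D) = 0 by
          unfold rr; field_simp; ring, Real.rpow_zero]
      have e3 : C b ^ ((rr k - 1) * (k / D)) * C b ^ (rr k * (1 / D)) = 1 := by
        rw [← Real.rpow_add hCb, show (rr k - 1) * (k / D) + rr k * (1 / D) = 0 by
          unfold rr; field_simp; ring, Real.rpow_zero]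
      calc m a b ^ rr (i + k) = m a b ^ (i / D) * m a b ^ (k / D) *
            (R a ^ ((rr i - 1) * (i / D)) * R a ^ (rr i * (1 / D))) *
            (C b ^ ((rr k - 1) * (k / D)) * C b ^ (rr k * (1 / D))) := by
            rw [e1, e2, e3, mul_one, mul_one]
        _ = _ := by ring
  have hS0 : 0 ≤ ∑ a ∈ s, ∑ b ∈ t, m a b ^ rr (i + k) :=
    Finset.sum_nonneg fun a _ => Finset.sum_nonneg fun b _ => Real.rpow_nonneg (hm a b) _
  refine rpow_inv_le hS0 (add_nonneg hX0 hY0) (rr_pos hj) ?_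
  rw [← Finset.sum_product' (f := fun a b => m a b ^ rr (i + k)), Finset.sum_congr rfl e]
  refine h3.trans ?_
  have eP : P = X ^ rr i := (Real.rpow_inv_rpow hP0 (rr_pos hi).ne').symm
  have eQ : Q = Y ^ rr k := (Real.rpow_inv_rpow hQ0 (rr_pos hk).ne').symm
  have hXY : 0 ≤ X + Y := add_nonneg hX0 hY0
  have bP : P ≤ (X + Y) ^ rr i := by
    rw [eP]; exact Real.rpow_le_rpow hX0 (by linarith) (rr_pos hi).le
  have bQ : Q ≤ (X + Y) ^ rr k := by
    rw [eQ]; exact Real.rpow_le_rpow hY0 (by linarith) (rr_pos hk).le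
  have p1 : 0 < rr i := rr_pos hi
  have p2 : 0 < rr k := rr_pos hk
  calc P ^ (i / D) * Q ^ (k / D) * (P * Q) ^ (1 / D)
      ≤ ((X + Y) ^ rr i) ^ (i / D) * ((X + Y) ^ rr k) ^ (k / D) *
        ((X + Y) ^ rr i * (X + Y) ^ rr k) ^ (1 / D) := by gcongr
    _ = (X + Y) ^ rr (i + k) := by
        rw [← Real.rpow_add' hXY (by positivity), ← Real.rpow_mul hXY, ← Real.rpow_mul hXY,
          ← Real.rpow_mul hXY, ← Real.rpow_add' hXY (by positivity),
          ← Real.rpow_add' hXY (by positivity)]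
        congr 1
        unfold rr
        push_cast
        rw [hD]
        field_simp
        ring

end Pool.Agent.H372Z.BH
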