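import Pool.Agent.H372Z.BH.Step

/-! Polynomial growth of the Bohnenblust-Hille constants on the Boolean cube. -/

set_option autoImplicit false
set_option linter.unusedSectionVars false

namespace Pool.Agent.H372Z.BH

open Finset Pool.Agent.H562R2

variable {X : Type} [Fintype X] [DecidableEq X]

theorem N2_lev (k : ℕ) (c : Finset X → ℝ) : N2 k (lev k c) = N2 k c := by
  unfold N2 LL
  congr 1
  exact Finset.sum_congr rfl fun S hS => by rw [lev, if_pos (Finset.mem_filter.1 hS).2]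

theorem deg_lev (k : ℕ) (c : Finset X → ℝ) {e : ℕ} (h : k ≤ e) : Deg (lev k c) e :=
  fun S hS => by rw [lev, if_neg (by omega)]

theorem rr_one : rr 1 = 1 / 2 := by unfold rr; norm_num

theorem N2_one {c : Finset X → ℝ} {M : ℝ} (h : Bdd (lev 1 c) M) : N2 1 c ≤ M ^ 2 := by
  have h1 := h (fun a => decide (c {a} < 0))
  have e : ev (lev 1 c) (fun a => decide (c {a} < 0)) = LL 1 c := by
    rw [ev, LL, Finset.sum_filter]
    refine Finset.sum_congr rfl fun S _ => ?_
    rw [lev]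
    split_ifs with hS
    · obtain ⟨a, rfl⟩ := Finset.card_eq_one.1 hS
      rw [rr_one, sq_rpow_half, walsh, Finset.prod_singleton]
      by_cases ha : c {a} < 0
      · simp [ha, abs_of_neg ha]
      · simp [ha, abs_of_nonneg (not_lt.1 ha)]
    · simp
  rw [e, abs_of_nonneg (LL_nonneg _ _)] at h1
  rw [N2, rr_one, show (1 / 2 : ℝ)⁻¹ = (2 : ℕ) by norm_num, Real.rpow_natCast]
  exact pow_le_pow_left₀ (LL_nonneg _ _) h1 2

theorem phi_four (J : ℕ) (hJ : 1 ≤ J) : Phi X 4 J (2500 * (J : ℝ) ^ 70) := by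
  refine recur le_rfl (fun i k a1 a2 a3 => ?_) (by norm_num) (fun c M hM hd hb => ?_) J hJ
  · rcases (show i = 1 ∨ 2 ≤ i by omega) with rfl | h
    · exact hyp_one
    · exact hyp_two _ _ h
  · have := N2_one (markov hM hd hb 1)
    rw [Finset.Icc_self, Finset.sum_singleton]
    refine this.trans (le_of_eq ?_)
    push_cast
    ring

theorem phi_all (d J : ℕ) (hJ : 1 ≤ J) :
    Phi X d J (2 ^ 162 * ((d : ℝ) + 4) ^ 16 * (J : ℝ) ^ 70) := by
  refine recur (j0 := 4) (by norm_num) (fun i k a1 a2 a3 => hyp_two _ _ (by omega))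
    (by positivity) (fun c M hM hd hb => ?_) J hJ
  have key : ∀ k ∈ Finset.Icc 1 4, N2 k c ≤ 2 ^ 160 * ((d : ℝ) + 4) ^ 16 * M ^ 2 := by
    intro k hk
    obtain ⟨k1, k4⟩ := Finset.mem_Icc.1 hk
    have k4' : (k : ℝ) ≤ 4 := by exact_mod_cast k4
    have k1' : (1 : ℝ) ≤ k := by exact_mod_cast k1
    have d0 : (0 : ℝ) ≤ d := by positivity
    have b1 : Bdd (lev k c) (16 * ((d : ℝ) + 4) ^ 8 * M) := fun x =>
      (markov hM hd hb k x).trans (mul_le_mul_of_nonneg_right (mul_le_mul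
        ((pow_le_pow_right₀ (by norm_num) k4).trans (by norm_num))
        ((pow_le_pow_left₀ (by positivity) (by linarith) _).trans
          (pow_le_pow_right₀ (by linarith) (by omega))) (by positivity) (by norm_num)) hM.le)
    have h1 := phi_four 4 (by norm_num) (lev k c) _ (by positivity) (deg_lev k c k4) b1
    have h2 := Finset.single_le_sum (f := fun j => N2 j (lev k c)) (fun _ _ => N2_nonneg _ _) hk
    simp only [N2_lev] at h2
    refine h2.trans (h1.trans ?_)
    have h3 : 0 ≤ ((d : ℝ) + 4) ^ 16 * M ^ 2 := by positivity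
    have h4 : (2500 * ((4 : ℕ) : ℝ) ^ 70 * 256 : ℝ) ≤ 2 ^ 160 := by norm_num
    calc _ = (2500 * ((4 : ℕ) : ℝ) ^ 70 * 256) * (((d : ℝ) + 4) ^ 16 * M ^ 2) := by ring
      _ ≤ 2 ^ 160 * (((d : ℝ) + 4) ^ 16 * M ^ 2) := mul_le_mul_of_nonneg_right h4 h3
      _ = _ := by ring
  refine (Finset.sum_le_sum key).trans (le_of_eq ?_)
  rw [Finset.sum_const, Nat.card_Icc, nsmul_eq_mul]
  push_cast
  ring

theorem total {c : Finset X → ℝ} {d : ℕ} {M : ℝ} (hd2 : 2 ≤ d) (hM : 0 < M) (hd : Deg c d)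
    (hb : Bdd c M) : ∑ S, (c S ^ 2) ^ rr d ≤ (((d : ℝ) ^ 142 * M) ^ 2) ^ rr d := by
  have d2 : (2 : ℝ) ≤ d := by exact_mod_cast hd2
  have hr : 0 < rr d := rr_pos (by omega)
  set G : ℝ := (d : ℝ) ^ 280 * M ^ 2 with hG
  have hG0 : 0 < G := by positivity
  have hMG : M ^ 2 ≤ G := le_mul_of_one_le_left (sq_nonneg _) (one_le_pow₀ (by linarith))
  have hc : ∀ S, c S ^ 2 ≤ G := fun S =>
    ((Finset.single_le_sum (f := fun S => c S ^ 2) (fun _ _ => sq_nonneg _)
      (Finset.mem_univ S)).trans (sum_sq_le hb)).trans hMG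
  have hN : ∀ j ∈ Finset.Icc 1 d, N2 j c ≤ G := by
    intro j hj
    have h1 := phi_all d d (by omega) c M hM hd hb
    refine (Finset.single_le_sum (f := fun j => N2 j c) (fun _ _ => N2_nonneg _ _) hj).trans
      (h1.trans (mul_le_mul_of_nonneg_right ?_ (sq_nonneg _)))
    have a1 : (2 : ℝ) ^ 162 ≤ (d : ℝ) ^ 162 := pow_le_pow_left₀ (by norm_num) d2 _
    have a2 : (d : ℝ) + 4 ≤ (d : ℝ) ^ 3 := by nlinarith [mul_le_mul d2 d2 (by norm_num) (by linarith)]
    have a3 : ((d : ℝ) + 4) ^ 16 ≤ ((d : ℝ) ^ 3) ^ 16 := pow_le_pow_left₀ (by positivity) a2 _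
    calc _ ≤ (d : ℝ) ^ 162 * ((d : ℝ) ^ 3) ^ 16 * (d : ℝ) ^ 70 := by gcongr
      _ = _ := by ring
  have hL : ∀ j ∈ Finset.range (d + 1),
      ∑ S ∈ Finset.univ.filter (fun S : Finset X => S.card = j), (c S ^ 2) ^ rr d ≤ G ^ rr d := by
    intro j hj
    have jd : j ≤ d := Nat.lt_succ_iff.1 (Finset.mem_range.1 hj)
    rcases Nat.eq_zero_or_pos j with rfl | j1
    · rw [show Finset.univ.filter (fun S : Finset X => S.card = 0) = {∅} by ext S; simp,
        Finset.sum_singleton]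
      exact Real.rpow_le_rpow (sq_nonneg _) (hc _) hr.le
    · have hrj : 0 < rr j := rr_pos j1
      have hδ : 0 ≤ rr d - rr j := sub_nonneg.2 (rr_mono jd)
      have a1 : LL j c ≤ G ^ rr j := by
        rw [← Real.rpow_inv_rpow (LL_nonneg j c) hrj.ne']
        exact Real.rpow_le_rpow (N2_nonneg j c) (hN j (Finset.mem_Icc.2 ⟨j1, jd⟩)) hrj.le
      calc _ ≤ ∑ S ∈ Finset.univ.filter (fun S : Finset X => S.card = j),
            (c S ^ 2) ^ rr j * G ^ (rr d - rr j) := by
            refine Finset.sum_le_sum fun S _ => ?_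
            rw [show rr d = rr j + (rr d - rr j) by ring,
              Real.rpow_add' (sq_nonneg _) (by linarith), add_sub_cancel_left]
            exact mul_le_mul_of_nonneg_left (Real.rpow_le_rpow (sq_nonneg _) (hc S) hδ)
              (Real.rpow_nonneg (sq_nonneg _) _)
        _ = LL j c * G ^ (rr d - rr j) := by rw [LL, Finset.sum_mul]
        _ ≤ G ^ rr j * G ^ (rr d - rr j) := mul_le_mul_of_nonneg_right a1 (by positivity)
        _ = _ := by rw [← Real.rpow_add hG0]; congr 1; ring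
  have h1 : ∑ S, (c S ^ 2) ^ rr d =
      ∑ S ∈ Finset.univ.filter (fun S : Finset X => S.card ≤ d), (c S ^ 2) ^ rr d := by
    rw [Finset.sum_filter]
    refine Finset.sum_congr rfl fun S _ => ?_
    split_ifs with h
    · rfl
    · rw [hd S (by omega), zero_pow two_ne_zero, Real.zero_rpow hr.ne']
  rw [h1, ← Finset.sum_fiberwise_of_maps_to (t := Finset.range (d + 1))
    (g := fun S : Finset X => S.card) (fun S hS => Finset.mem_range.2
      (Nat.lt_succ_of_le (Finset.mem_filter.1 hS).2))]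
  calc _ ≤ ∑ _j ∈ Finset.range (d + 1), G ^ rr d := by
        refine Finset.sum_le_sum fun j hj => le_trans ?_ (hL j hj)
        exact Finset.sum_le_sum_of_subset_of_nonneg
          (Finset.filter_subset_filter _ (Finset.subset_univ _))
          fun _ _ _ => Real.rpow_nonneg (sq_nonneg _) _
    _ = ((d : ℝ) + 1) * G ^ rr d := by
        rw [Finset.sum_const, Finset.card_range, nsmul_eq_mul]; push_cast; rfl
    _ ≤ ((d : ℝ) ^ 4) ^ rr d * G ^ rr d := by
        refine mul_le_mul_of_nonneg_right ?_ (by positivity)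
        have := rr_inv_le (show 1 ≤ d by omega)
        rw [inv_le_comm₀ hr (by norm_num)] at this
        calc (d : ℝ) + 1 ≤ (d : ℝ) ^ 2 := by nlinarith
          _ = ((d : ℝ) ^ 4) ^ (2⁻¹ : ℝ) := by
              rw [show (d : ℝ) ^ 4 = ((d : ℝ) ^ 2) ^ (2 : ℝ) by rw [Real.rpow_two]; ring,
                ← Real.rpow_mul (by positivity)]
              norm_num
          _ ≤ _ := Real.rpow_le_rpow_of_exponent_le (one_le_pow₀ (by linarith)) this
    _ = _ := by
        rw [← Real.mul_rpow (by positivity) hG0.le, hG]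
        congr 1
        ring

theorem deg_one {c : Finset X → ℝ} {M : ℝ} (hd : Deg c 1) (hb : Bdd c M) : ∑ S, |c S| ≤ M := by
  set x : X → Bool := fun a => xor (decide (c {a} < 0)) (decide (c ∅ < 0)) with hx
  have sa : ∀ t : ℝ, t * sg (decide (t < 0)) = |t| := by
    intro t
    by_cases ha : t < 0
    · simp [ha, abs_of_neg ha]
    · simp [ha, abs_of_nonneg (not_lt.1 ha)]
  have e : ev c x * sg (decide (c ∅ < 0)) = ∑ S, |c S| := by
    rw [ev, Finset.sum_mul]
    refine Finset.sum_congr rfl fun S _ => ?_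
    rcases (show S.card = 0 ∨ S.card = 1 ∨ 1 < S.card by omega) with h | h | h
    · rw [Finset.card_eq_zero.1 h, walsh_empty, mul_one, sa]
    · obtain ⟨a, rfl⟩ := Finset.card_eq_one.1 h
      rw [walsh, Finset.prod_singleton, hx]
      simp only [sg_xor]
      rw [mul_assoc, mul_assoc, sg_mul_self, mul_one, sa]
    · rw [hd S h]; simp
  rw [← e]
  refine (le_abs_self _).trans ?_
  rw [abs_mul, show |sg (decide (c ∅ < 0))| = 1 by cases decide (c ∅ < 0) <;> simp, mul_one]
  exact hb x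

/-- The Bohnenblust-Hille inequality with a polynomial constant. -/
theorem bh {c : Finset X → ℝ} {d : ℕ} {M : ℝ} (hd1 : 1 ≤ d) (hd : Deg c d) (hb : Bdd c M) :
    (∑ S, |c S| ^ ((2 * (d : ℝ)) / ((d : ℝ) + 1))) ^ (((d : ℝ) + 1) / (2 * (d : ℝ))) ≤
      (d : ℝ) ^ (142 : ℝ) * M := by
  have hM : 0 ≤ M := (abs_nonneg _).trans (hb fun _ => true)
  have d0 : (0 : ℝ) < d := by exact_mod_cast hd1
  rcases (show d = 1 ∨ 2 ≤ d by omega) with rfl | hd2
  · have := deg_one hd hb
    norm_num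
    exact this
  have hq : 0 < (2 * (d : ℝ)) / ((d : ℝ) + 1) := by positivity
  rw [← inv_div (2 * (d : ℝ)) ((d : ℝ) + 1)]
  refine rpow_inv_le (Finset.sum_nonneg fun _ _ => Real.rpow_nonneg (abs_nonneg _) _)
    (by positivity) hq ?_
  have e : ∀ t : ℝ, |t| ^ ((2 * (d : ℝ)) / ((d : ℝ) + 1)) = (t ^ 2) ^ rr d := by
    intro t
    rw [← sq_abs t, ← Real.rpow_natCast, ← Real.rpow_mul (abs_nonneg _), rr]
    congr 1
    push_cast
    ring
  rcases hM.eq_or_lt with h0 | hpos
  · have h1 := sum_sq_le hb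
    rw [← h0, zero_pow two_ne_zero] at h1
    have h2 : ∀ S, c S = 0 := fun S => pow_eq_zero_iff two_ne_zero |>.1
      (le_antisymm ((Finset.single_le_sum (f := fun S => c S ^ 2) (fun _ _ => sq_nonneg _)
        (Finset.mem_univ S)).trans h1) (sq_nonneg _))
    simp only [h2, abs_zero, Real.zero_rpow hq.ne', Finset.sum_const_zero]
    positivity
  · have h1 := total hd2 hpos hd hb
    rw [← abs_of_nonneg (show 0 ≤ (d : ℝ) ^ (142 : ℝ) * M by positivity)]
    simp only [e]
    rw [show (142 : ℝ) = (142 : ℕ) by norm_num, Real.rpow_natCast]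
    exact h1

/-- The same with real sign vectors. -/
theorem bh_sign {c : Finset X → ℝ} {d : ℕ} {M : ℝ} (hd1 : 1 ≤ d) (hd : Deg c d)
    (hb : ∀ x : X → ℝ, (∀ i, x i = 1 ∨ x i = -1) → |∑ S, c S * ∏ i ∈ S, x i| ≤ M) :
    (∑ S, |c S| ^ ((2 * (d : ℝ)) / ((d : ℝ) + 1))) ^ (((d : ℝ) + 1) / (2 * (d : ℝ))) ≤
      (d : ℝ) ^ (142 : ℝ) * M :=
  bh hd1 hd fun y => hb (fun i => sg (y i)) fun i => by cases y i <;> simp

/-- The homogeneous case. -/
theorem bh_hom (a : Finset X → ℝ) {d : ℕ} (hd1 : 1 ≤ d) :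
    ∃ x : X → ℝ, (∀ i, x i = 1 ∨ x i = -1) ∧
      (∑ S ∈ (Finset.univ : Finset X).powersetCard d,
          |a S| ^ ((2 * (d : ℝ)) / ((d : ℝ) + 1))) ^ (((d : ℝ) + 1) / (2 * (d : ℝ))) ≤
        (d : ℝ) ^ (142 : ℝ) *
          |∑ S ∈ (Finset.univ : Finset X).powersetCard d, a S * ∏ i ∈ S, x i| := by
  obtain ⟨y, -, hy⟩ := Finset.exists_max_image Finset.univ (fun y => |ev (lev d a) y|)
    Finset.univ_nonempty
  have d0 : (0 : ℝ) < d := by exact_mod_cast hd1
  have hq : 0 < (2 * (d : ℝ)) / ((d : ℝ) + 1) := by positivity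
  refine ⟨fun i => sg (y i), fun i => by cases h : y i <;> simp [h], ?_⟩
  have h := bh hd1 (deg_lev d a le_rfl) (fun x => hy x (Finset.mem_univ x))
  have hp : (Finset.univ : Finset X).powersetCard d =
      Finset.univ.filter (fun S : Finset X => S.card = d) := by ext S; simp
  rw [hp, Finset.sum_filter, Finset.sum_filter]
  convert h using 3
  · rename_i S _
    rw [lev]
    split_ifs
    · rfl
    · rw [abs_zero, Real.zero_rpow hq.ne']
  · refine Finset.sum_congr rfl fun S _ => ?_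
    rw [lev]
    split_ifs
    · rfl
    · rw [zero_mul]

end Pool.Agent.H372Z.BH
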