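import Pool.Agent.H372Z.BH.Cube

/-! The recursion for the sum over the levels of the squared Bohnenblust-Hille norms. -/

set_option autoImplicit false
set_option linter.unusedSectionVars false

namespace Pool.Agent.H372Z.BH

open Finset Pool.Agent.H562R2

variable {X : Type} [Fintype X] [DecidableEq X]

/-- The sum of the powers of the coefficients at level `j`. -/
noncomputable def LL (j : ℕ) (c : Finset X → ℝ) : ℝ :=
  ∑ S ∈ Finset.univ.filter (fun S : Finset X => S.card = j), (c S ^ 2) ^ rr j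

/-- The squared Bohnenblust-Hille norm of level `j`. -/
noncomputable def N2 (j : ℕ) (c : Finset X → ℝ) : ℝ := LL j c ^ (rr j)⁻¹

theorem LL_nonneg (j : ℕ) (c : Finset X → ℝ) : 0 ≤ LL j c :=
  Finset.sum_nonneg fun _ _ => Real.rpow_nonneg (sq_nonneg _) _

theorem N2_nonneg (j : ℕ) (c : Finset X → ℝ) : 0 ≤ N2 j c := Real.rpow_nonneg (LL_nonneg j c) _

/-- The statement proved by recursion on `J`. -/
def Phi (X : Type) [Fintype X] [DecidableEq X] (d J : ℕ) (B : ℝ) : Prop :=
  ∀ (c : Finset X → ℝ) (M : ℝ), 0 < M → Deg c d → Bdd c M →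
    ∑ j ∈ Finset.Icc 1 J, N2 j c ≤ B * M ^ 2

/-- Coefficients of the restriction to the variables in `A`. -/
noncomputable def rs (A : Finset X) (c : Finset X → ℝ) (y : X → Bool) : Finset X → ℝ :=
  fun T => if T ⊆ A then ∑ U ∈ Aᶜ.powerset, c (T ∪ U) * walsh U y else 0

theorem sum_split (A : Finset X) (ψ : Finset X → ℝ) :
    ∑ S, ψ S = ∑ T ∈ A.powerset, ∑ U ∈ Aᶜ.powerset, ψ (T ∪ U) := by
  rw [← Finset.sum_product' (f := fun T U => ψ (T ∪ U))]
  refine Finset.sum_nbij' (fun S => (S ∩ A, S \ A)) (fun p => p.1 ∪ p.2) ?_ ?_ ?_ ?_ ?_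
  · intro S _
    simp only [Finset.mem_product, Finset.mem_powerset]
    exact ⟨Finset.inter_subset_right, fun x hx => by simp [(Finset.mem_sdiff.1 hx).2]⟩
  · intro p _; exact Finset.mem_univ _
  · intro S _
    ext x; by_cases h : x ∈ A <;> simp [h]
  · rintro ⟨T, U⟩ hp
    obtain ⟨hT, hU⟩ := Finset.mem_product.1 hp
    rw [Finset.mem_powerset] at hT hU
    have h1 : ∀ x ∈ U, x ∉ A := fun x hx => Finset.mem_compl.1 (hU hx)
    refine Prod.ext ?_ ?_
    · ext x
      simp only [Finset.mem_inter, Finset.mem_union]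
      exact ⟨fun h => h.1.resolve_right fun h2 => h1 x h2 h.2, fun h => ⟨Or.inl h, hT h⟩⟩
    · ext x
      simp only [Finset.mem_sdiff, Finset.mem_union]
      exact ⟨fun h => h.1.resolve_left fun h2 => h.2 (hT h2), fun h => ⟨Or.inr h, h1 x h⟩⟩
  · intro S _
    congr 1
    ext x; by_cases h : x ∈ A <;> simp [h]

theorem ev_rs (A : Finset X) (c : Finset X → ℝ) (y x : X → Bool) :
    ev (rs A c y) x = ev c (A.piecewise x y) := by
  rw [ev, ev, sum_split A (fun S => c S * walsh S (A.piecewise x y))]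
  simp only [rs, ite_mul, zero_mul]
  rw [← Finset.sum_filter]
  refine Finset.sum_congr (by ext T; simp) fun T hT => ?_
  rw [Finset.mem_powerset] at hT
  rw [Finset.sum_mul]
  refine Finset.sum_congr rfl fun U hU => ?_
  rw [Finset.mem_powerset] at hU
  have hd : Disjoint T U := Finset.disjoint_left.2 fun a ha hb => Finset.mem_compl.1 (hU hb) (hT ha)
  have e1 : walsh T (A.piecewise x y) = walsh T x :=
    Finset.prod_congr rfl fun i hi => by rw [Finset.piecewise_eq_of_mem _ _ _ (hT hi)]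
  have e2 : walsh U (A.piecewise x y) = walsh U y :=
    Finset.prod_congr rfl fun i hi => by
      rw [Finset.piecewise_eq_of_notMem _ _ _ (Finset.mem_compl.1 (hU hi))]
  have e3 : walsh (T ∪ U) (A.piecewise x y) =
      walsh T (A.piecewise x y) * walsh U (A.piecewise x y) := Finset.prod_union hd
  rw [e3, e1, e2]
  ring

theorem deg_rs {c : Finset X → ℝ} {d : ℕ} (h : Deg c d) (A : Finset X) (y : X → Bool) :
    Deg (rs A c y) d := by
  intro T hT
  unfold rs
  split_ifs
  · exact Finset.sum_eq_zero fun U _ => by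
      rw [h _ (hT.trans_le (Finset.card_le_card Finset.subset_union_left)), zero_mul]
  · rfl

theorem bdd_rs {c : Finset X → ℝ} {M : ℝ} (h : Bdd c M) (A : Finset X) (y : X → Bool) :
    Bdd (rs A c y) M := fun x => by rw [ev_rs]; exact h _

/-- The squared mixed norm of the block of bidegree `(i, k)`. -/
noncomputable def X2 (c : Finset X → ℝ) (A : Finset X) (i k : ℕ) : ℝ :=
  (∑ T ∈ A.powersetCard i, (∑ U ∈ Aᶜ.powersetCard k, c (T ∪ U) ^ 2) ^ rr i) ^ (rr i)⁻¹

theorem X2_nonneg (c : Finset X → ℝ) (A : Finset X) (i k : ℕ) : 0 ≤ X2 c A i k :=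
  Real.rpow_nonneg (Finset.sum_nonneg fun _ _ =>
    Real.rpow_nonneg (Finset.sum_nonneg fun _ _ => sq_nonneg _) _) _

theorem X2_bound {c : Finset X → ℝ} {d i : ℕ} (hd : Deg c d) (hi : 1 ≤ i) (hyp : Hyp X d i)
    (A : Finset X) (K : Finset ℕ) (hK : ∀ k ∈ K, k ≤ 3 * i) :
    NN X * ∑ k ∈ K, X2 c A i k ≤ 729 ^ 2 * ∑ y, N2 i (rs A c y) := by
  have hN := NN_pos (X := X)
  have hr := rr_pos hi
  have hr1 := rr_le i
  have h1 := revmink (A.powersetCard i) K (fun T k => ∑ U ∈ Aᶜ.powersetCard k, c (T ∪ U) ^ 2)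
    (fun _ _ => Finset.sum_nonneg fun _ _ => sq_nonneg _) (rr i) hr hr1
  have h2 : ∀ T ∈ A.powersetCard i,
      NN X * (∑ k ∈ K, ∑ U ∈ Aᶜ.powersetCard k, c (T ∪ U) ^ 2) ^ rr i ≤
        729 * ∑ y, (rs A c y T ^ 2) ^ rr i := by
    intro T hT
    have hTA : T ⊆ A := (Finset.mem_powersetCard.1 hT).1
    set b : Finset X → ℝ := fun U => if U ⊆ Aᶜ then c (T ∪ U) else 0 with hb
    have db : Deg b d := fun U hU => by
      simp only [hb]
      split_ifs
      · exact hd _ (hU.trans_le (Finset.card_le_card Finset.subset_union_right))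
      · rfl
    have e : ∀ y, ev b y = rs A c y T := by
      intro y
      simp only [ev, hb, rs, if_pos hTA, ite_mul, zero_mul]
      rw [← Finset.sum_filter]
      exact Finset.sum_congr (by ext U; simp) fun _ _ => rfl
    have h3 := hyp b db
    simp only [e] at h3
    refine le_trans (mul_le_mul_of_nonneg_left (Real.rpow_le_rpow
      (Finset.sum_nonneg fun _ _ => Finset.sum_nonneg fun _ _ => sq_nonneg _) ?_ hr.le) hN.le) h3
    refine le_trans (Finset.sum_le_sum fun k hk => ?_)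
      (Finset.sum_fiberwise_le_sum_of_sum_fiber_nonneg (t := K) (g := fun U : Finset X => U.card)
        fun _ _ => Finset.sum_nonneg fun _ _ => sq_nonneg _)
    calc ∑ U ∈ Aᶜ.powersetCard k, c (T ∪ U) ^ 2 = ∑ U ∈ Aᶜ.powersetCard k, b U ^ 2 :=
          Finset.sum_congr rfl fun U hU => by
            simp only [hb, if_pos (Finset.mem_powersetCard.1 hU).1]
      _ ≤ _ := Finset.sum_le_sum_of_subset_of_nonneg (fun U hU => by
            have := (Finset.mem_powersetCard.1 hU).2
            have := hK k hk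
            simp only [Finset.mem_filter, Finset.mem_univ, true_and]
            omega) fun _ _ _ => sq_nonneg _
  set Z : ℝ := ∑ T ∈ A.powersetCard i,
    (∑ k ∈ K, ∑ U ∈ Aᶜ.powersetCard k, c (T ∪ U) ^ 2) ^ rr i with hZ
  have hZ0 : 0 ≤ Z := Finset.sum_nonneg fun _ _ => Real.rpow_nonneg
    (Finset.sum_nonneg fun _ _ => Finset.sum_nonneg fun _ _ => sq_nonneg _) _
  set F : ℝ := ∑ y, N2 i (rs A c y) with hF
  have hF0 : 0 ≤ F := Finset.sum_nonneg fun _ _ => N2_nonneg _ _
  have h4 : NN X * Z ≤ 729 * ∑ y, LL i (rs A c y) := by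
    rw [hZ, Finset.mul_sum]
    refine (Finset.sum_le_sum h2).trans ?_
    rw [← Finset.mul_sum, Finset.sum_comm]
    refine mul_le_mul_of_nonneg_left (Finset.sum_le_sum fun y _ => ?_) (by norm_num)
    exact Finset.sum_le_sum_of_subset_of_nonneg (fun T hT => by
      simp [(Finset.mem_powersetCard.1 hT).2]) fun _ _ _ => Real.rpow_nonneg (sq_nonneg _) _
  have h5 : ∑ y, LL i (rs A c y) ≤ F ^ rr i * NN X ^ (1 - rr i) := by
    have := powmean Finset.univ (fun y => N2 i (rs A c y)) (fun _ _ => N2_nonneg _ _) (rr i)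
      hr.le hr1 F (NN X) le_rfl card_cube.le
    refine le_trans (le_of_eq (Finset.sum_congr rfl fun y _ => ?_)) this
    exact (Real.rpow_inv_rpow (LL_nonneg _ _) hr.ne').symm
  have h6 : Z ≤ (729 ^ 2 * F / NN X) ^ rr i := by
    have a1 : (729 : ℝ) ≤ (729 ^ 2) ^ rr i := by
      have := rr_inv_le hi
      rw [inv_le_comm₀ hr (by norm_num)] at this
      calc (729 : ℝ) = (729 ^ 2) ^ (2⁻¹ : ℝ) := by
            rw [← Real.rpow_natCast, ← Real.rpow_mul (by norm_num)]; norm_num
        _ ≤ _ := Real.rpow_le_rpow_of_exponent_le (by norm_num) this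
    rw [Real.div_rpow (by positivity) hN.le, Real.mul_rpow (by positivity) hF0,
      le_div_iff₀ (by positivity)]
    have a2 : NN X ^ rr i * NN X ^ (1 - rr i) = NN X := by
      rw [← Real.rpow_add hN]; simp
    have a3 : 0 < NN X ^ (1 - rr i) := by positivity
    refine le_of_mul_le_mul_right ?_ a3
    have a4 : 0 ≤ F ^ rr i * NN X ^ (1 - rr i) := by positivity
    calc Z * NN X ^ rr i * NN X ^ (1 - rr i) = NN X * Z := by rw [mul_assoc, a2, mul_comm]
      _ ≤ 729 * (F ^ rr i * NN X ^ (1 - rr i)) := by linarith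
      _ ≤ (729 ^ 2) ^ rr i * (F ^ rr i * NN X ^ (1 - rr i)) := mul_le_mul_of_nonneg_right a1 a4
      _ = _ := by ring
  have h7 := rpow_inv_le hZ0 (by positivity) hr h6
  have h8 : ∑ k ∈ K, X2 c A i k ≤ 729 ^ 2 * F / NN X := h1.trans h7
  rw [le_div_iff₀ hN] at h8
  linarith

/-- The set of coordinates where `x` is true. -/
def tr (x : X → Bool) : Finset X := Finset.univ.filter fun a => x a = true

theorem good_count (S : Finset X) (hS : 2 ≤ S.card) :
    NN X / 5 ≤ ∑ x : X → Bool, (if (S \ tr x).card ≤ 3 * (S ∩ tr x).card ∧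
      (S ∩ tr x).card ≤ 3 * (S \ tr x).card then (1 : ℝ) else 0) := by
  have hN := NN_pos (X := X)
  have e1 : ∀ x : X → Bool, ∑ a ∈ S, sg (x a) = ((S \ tr x).card : ℝ) - (S ∩ tr x).card := by
    intro x
    rw [← Finset.sum_inter_add_sum_sdiff S (tr x)]
    have a1 : ∑ a ∈ S ∩ tr x, sg (x a) = ∑ _a ∈ S ∩ tr x, (-1 : ℝ) :=
      Finset.sum_congr rfl fun a ha => by
        have : x a = true := by simpa [tr] using (Finset.mem_inter.1 ha).2
        rw [this, sg_true]
    have a2 : ∑ a ∈ S \ tr x, sg (x a) = ∑ _a ∈ S \ tr x, (1 : ℝ) :=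
      Finset.sum_congr rfl fun a ha => by
        have : x a = false := by simpa [tr] using (Finset.mem_sdiff.1 ha).2
        rw [this, sg_false]
    rw [a1, a2]
    simp
    ring
  have e2 : ∑ x : X → Bool, (∑ a ∈ S, sg (x a)) ^ 2 = NN X * S.card := by
    have : ∀ x : X → Bool, (∑ a ∈ S, sg (x a)) ^ 2 =
        ∑ a ∈ S, ∑ b ∈ S, walsh {a} x * walsh {b} x := by
      intro x
      rw [sq, Finset.sum_mul_sum]
      simp [walsh]
    simp only [this]
    rw [Finset.sum_comm]
    have h2 : ∀ a ∈ S, ∑ x : X → Bool, ∑ b ∈ S, walsh {a} x * walsh {b} x = NN X := by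
      intro a ha
      rw [Finset.sum_comm]
      simp only [walsh_orth, Finset.singleton_inj, Finset.sum_ite_eq, if_pos ha, NN]
    rw [Finset.sum_congr rfl h2, Finset.sum_const, nsmul_eq_mul, mul_comm]
  have hj : (2 : ℝ) ≤ S.card := by exact_mod_cast hS
  have key : ∀ x : X → Bool, 1 - 4 / (5 * S.card) * (∑ a ∈ S, sg (x a)) ^ 2 ≤
      (if (S \ tr x).card ≤ 3 * (S ∩ tr x).card ∧
      (S ∩ tr x).card ≤ 3 * (S \ tr x).card then (1 : ℝ) else 0) := by
    intro x
    split_ifs with h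
    · have : 0 ≤ 4 / (5 * (S.card : ℝ)) * (∑ a ∈ S, sg (x a)) ^ 2 := by positivity
      linarith
    · rw [e1, sub_nonpos, div_mul_eq_mul_div, le_div_iff₀ (by positivity), one_mul]
      have hc := Finset.card_sdiff_add_card_inter S (tr x)
      generalize (S \ tr x).card = k at *
      generalize (S ∩ tr x).card = i at *
      rw [← hc]
      have : (5 : ℤ) * (k + i) ≤ 4 * ((k : ℤ) - i) ^ 2 := by
        have h2 : 2 ≤ k + i := by omega
        rcases not_and_or.1 h with h | h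
        · have h3 : (3 : ℤ) * i + 1 ≤ k := by omega
          rcases Nat.eq_zero_or_pos i with h0 | h0
          · subst h0
            have : (2 : ℤ) ≤ k := by omega
            push_cast; nlinarith
          · have : (1 : ℤ) ≤ i := by omega
            nlinarith
        · have h3 : (3 : ℤ) * k + 1 ≤ i := by omega
          rcases Nat.eq_zero_or_pos k with h0 | h0
          · subst h0
            have : (2 : ℤ) ≤ i := by omega
            push_cast; nlinarith
          · have : (1 : ℤ) ≤ k := by omega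
            nlinarith
      exact_mod_cast this
  refine le_trans (le_of_eq ?_) (Finset.sum_le_sum fun x _ => key x)
  rw [Finset.sum_sub_distrib, ← Finset.mul_sum, e2, Finset.sum_const, nsmul_eq_mul, card_cube]
  field_simp
  ring

/-- The block sum of bidegree `p`. -/
noncomputable def blk (c : Finset X → ℝ) (A : Finset X) (p : ℕ × ℕ) : ℝ :=
  ∑ T ∈ A.powersetCard p.1, ∑ U ∈ Aᶜ.powersetCard p.2, (c (T ∪ U) ^ 2) ^ rr (p.1 + p.2)

theorem blk_nonneg (c : Finset X → ℝ) (A : Finset X) (p : ℕ × ℕ) : 0 ≤ blk c A p :=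
  Finset.sum_nonneg fun _ _ => Finset.sum_nonneg fun _ _ => Real.rpow_nonneg (sq_nonneg _) _

theorem blk_le (c : Finset X → ℝ) (A : Finset X) (p : ℕ × ℕ) (h1 : 1 ≤ p.1) (h2 : 1 ≤ p.2) :
    blk c A p ^ (rr (p.1 + p.2))⁻¹ ≤ X2 c A p.1 p.2 + X2 c Aᶜ p.2 p.1 := by
  have := mixed (A.powersetCard p.1) (Aᶜ.powersetCard p.2) (fun T U => c (T ∪ U) ^ 2)
    (fun _ _ => sq_nonneg _) p.1 p.2 h1 h2
  refine this.trans (le_of_eq ?_)
  simp only [X2, compl_compl, Finset.union_comm]

theorem level_le (c : Finset X → ℝ) (j : ℕ) (hj : 2 ≤ j) (P : Finset (ℕ × ℕ))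
    (hP : ∀ p ∈ P, p.1 + p.2 = j ∧ 1 ≤ p.1 ∧ 1 ≤ p.2)
    (hP2 : ∀ i k, i + k = j → k ≤ 3 * i → i ≤ 3 * k → (i, k) ∈ P) :
    NN X * N2 j c ≤ 100 * ∑ x : X → Bool, ∑ p ∈ P,
      (X2 c (tr x) p.1 p.2 + X2 c (tr x)ᶜ p.2 p.1) := by
  have hN := NN_pos (X := X)
  have hr : 0 < rr j := rr_pos (by omega)
  have hr1 := rr_le j
  have h1 : ∀ A : Finset X, ∑ S ∈ Finset.univ.filter (fun S : Finset X => S.card = j),
      (if (S \ A).card ≤ 3 * (S ∩ A).card ∧ (S ∩ A).card ≤ 3 * (S \ A).card then (1 : ℝ) else 0) *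
        (c S ^ 2) ^ rr j ≤ ∑ p ∈ P, blk c A p := by
    intro A
    have n0 : ∀ (S T U : Finset X), 0 ≤ (if T ∪ U = S then (c S ^ 2) ^ rr j else 0) := by
      intro S T U
      split_ifs
      · exact Real.rpow_nonneg (sq_nonneg _) _
      · exact le_rfl
    calc _ ≤ ∑ S ∈ Finset.univ.filter (fun S : Finset X => S.card = j), ∑ p ∈ P,
          ∑ T ∈ A.powersetCard p.1, ∑ U ∈ Aᶜ.powersetCard p.2,
            (if T ∪ U = S then (c S ^ 2) ^ rr j else 0) := by
          refine Finset.sum_le_sum fun S hS => ?_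
          have hS' : S.card = j := (Finset.mem_filter.1 hS).2
          split_ifs with h
          · have hc := Finset.card_sdiff_add_card_inter S A
            have m1 := hP2 (S ∩ A).card (S \ A).card (by omega) h.1 h.2
            refine le_trans ?_ (Finset.single_le_sum (f := fun p : ℕ × ℕ =>
              ∑ T ∈ A.powersetCard p.1, ∑ U ∈ Aᶜ.powersetCard p.2,
                (if T ∪ U = S then (c S ^ 2) ^ rr j else 0)) (fun p _ =>
              Finset.sum_nonneg fun T _ => Finset.sum_nonneg fun U _ => n0 S T U) m1)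
            have m2 : S ∩ A ∈ A.powersetCard (S ∩ A).card :=
              Finset.mem_powersetCard.2 ⟨Finset.inter_subset_right, rfl⟩
            refine le_trans ?_ (Finset.single_le_sum (f := fun T =>
              ∑ U ∈ Aᶜ.powersetCard (S \ A).card, (if T ∪ U = S then (c S ^ 2) ^ rr j else 0))
              (fun T _ => Finset.sum_nonneg fun U _ => n0 S T U) m2)
            have m3 : S \ A ∈ Aᶜ.powersetCard (S \ A).card :=
              Finset.mem_powersetCard.2 ⟨fun x hx => by simp [(Finset.mem_sdiff.1 hx).2], rfl⟩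
            refine le_trans ?_ (Finset.single_le_sum (f := fun U =>
              (if S ∩ A ∪ U = S then (c S ^ 2) ^ rr j else 0)) (fun U _ => n0 S _ U) m3)
            rw [if_pos (by ext x; by_cases h : x ∈ A <;> simp [h]), one_mul]
          · rw [zero_mul]
            exact Finset.sum_nonneg fun p _ => Finset.sum_nonneg fun T _ =>
              Finset.sum_nonneg fun U _ => n0 S T U
      _ ≤ ∑ p ∈ P, blk c A p := by
          rw [Finset.sum_comm]
          refine Finset.sum_le_sum fun p hp => ?_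
          rw [Finset.sum_comm, blk, (hP p hp).1]
          refine Finset.sum_le_sum fun T _ => ?_
          rw [Finset.sum_comm]
          refine Finset.sum_le_sum fun U _ => ?_
          rw [Finset.sum_ite_eq]
          split_ifs
          · exact le_rfl
          · exact Real.rpow_nonneg (sq_nonneg _) _
  have h2 : NN X / 5 * LL j c ≤ ∑ x : X → Bool, ∑ p ∈ P, blk c (tr x) p := by
    refine le_trans ?_ (Finset.sum_le_sum fun x _ => h1 (tr x))
    rw [Finset.sum_comm, LL, Finset.mul_sum]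
    refine Finset.sum_le_sum fun S hS => ?_
    rw [← Finset.sum_mul]
    have hS' : S.card = j := (Finset.mem_filter.1 hS).2
    exact mul_le_mul_of_nonneg_right (good_count S (by omega)) (Real.rpow_nonneg (sq_nonneg _) _)
  set F : ℝ := ∑ x : X → Bool, ∑ p ∈ P, (X2 c (tr x) p.1 p.2 + X2 c (tr x)ᶜ p.2 p.1) with hF
  have hF0 : 0 ≤ F := Finset.sum_nonneg fun _ _ => Finset.sum_nonneg fun _ _ =>
    add_nonneg (X2_nonneg _ _ _ _) (X2_nonneg _ _ _ _)
  have hcard : P.card ≤ j + 1 := by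
    rw [← Finset.Nat.card_antidiagonal j]
    exact Finset.card_le_card fun p hp => by simpa using (hP p hp).1
  have h3 := powmean (Finset.univ ×ˢ P) (fun q : (X → Bool) × (ℕ × ℕ) =>
      blk c (tr q.1) q.2 ^ (rr j)⁻¹) (fun _ _ => Real.rpow_nonneg (blk_nonneg _ _ _) _) (rr j)
      hr.le hr1 F (NN X * (j + 1)) (by
        rw [Finset.sum_product, hF]
        refine Finset.sum_le_sum fun x _ => Finset.sum_le_sum fun p hp => ?_
        have := blk_le c (tr x) p (hP p hp).2.1 (hP p hp).2.2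
        rwa [(hP p hp).1] at this) (by
        rw [Finset.card_product, Nat.cast_mul, card_cube]
        exact mul_le_mul_of_nonneg_left (by exact_mod_cast hcard) hN.le)
  simp only [Real.rpow_inv_rpow (blk_nonneg _ _ _) hr.ne'] at h3
  rw [Finset.sum_product, Real.mul_rpow hN.le (by positivity)] at h3
  have h4 : ((j : ℝ) + 1) ^ (1 - rr j) ≤ 2 := by
    have a1 : 1 - rr j = ((j + 1 : ℕ) : ℝ)⁻¹ := by unfold rr; push_cast; field_simp; ring
    rw [a1]
    refine rpow_inv_le (by positivity) (by norm_num) (by positivity) ?_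
    rw [Real.rpow_natCast]
    exact_mod_cast (Nat.lt_two_pow_self (n := j + 1)).le
  have h5 : LL j c ≤ (100 * F / NN X) ^ rr j := by
    have a1 : (10 : ℝ) ≤ 100 ^ rr j := by
      have := rr_inv_le (show 1 ≤ j by omega)
      rw [inv_le_comm₀ hr (by norm_num)] at this
      calc (10 : ℝ) = 100 ^ (2⁻¹ : ℝ) := by
            rw [show (100 : ℝ) = 10 ^ (2 : ℝ) by norm_num, ← Real.rpow_mul (by norm_num)]; norm_num
        _ ≤ _ := Real.rpow_le_rpow_of_exponent_le (by norm_num) this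
    rw [Real.div_rpow (by positivity) hN.le, Real.mul_rpow (by positivity) hF0,
      le_div_iff₀ (by positivity)]
    have a2 : NN X ^ rr j * NN X ^ (1 - rr j) = NN X := by
      rw [← Real.rpow_add hN]; simp
    have a3 : 0 < NN X ^ (1 - rr j) := by positivity
    refine le_of_mul_le_mul_right ?_ a3
    have a4 : 0 ≤ F ^ rr j * NN X ^ (1 - rr j) := by positivity
    have a5 := mul_le_mul_of_nonneg_left h4 a4
    calc LL j c * NN X ^ rr j * NN X ^ (1 - rr j) = NN X * LL j c := by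
          rw [mul_assoc, a2, mul_comm]
      _ ≤ 10 * (F ^ rr j * NN X ^ (1 - rr j)) := by linarith
      _ ≤ 100 ^ rr j * (F ^ rr j * NN X ^ (1 - rr j)) := mul_le_mul_of_nonneg_right a1 a4
      _ = _ := by ring
  have h7 : N2 j c ≤ 100 * F / NN X := rpow_inv_le (LL_nonneg _ _) (by positivity) hr h5
  rw [le_div_iff₀ hN] at h7
  linarith

theorem step {d j0 J : ℕ} (hj0 : 1 ≤ j0)
    (hyp : ∀ i k, k ≤ 3 * i → i ≤ 3 * k → j0 < i + k → Hyp X d i) {B : ℝ}
    (h : Phi X d (3 * J / 4) B) (c : Finset X → ℝ) (M : ℝ) (hM : 0 < M) (hd : Deg c d)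
    (hb : Bdd c M) : ∑ j ∈ Finset.Icc (j0 + 1) J, N2 j c ≤ 200 * 729 ^ 2 * B * M ^ 2 := by
  have hN := NN_pos (X := X)
  set I := Finset.Icc 1 (3 * J / 4) with hI
  set Q := (I ×ˢ I).filter (fun p => p.2 ≤ 3 * p.1 ∧ p.1 ≤ 3 * p.2 ∧ j0 < p.1 + p.2) with hQ
  have h1 : ∀ A : Finset X, ∑ p ∈ Q, X2 c A p.1 p.2 ≤ 729 ^ 2 * (B * M ^ 2) := by
    intro A
    refine le_of_mul_le_mul_left ?_ hN
    rw [hQ, Finset.sum_filter, Finset.sum_product, Finset.mul_sum]
    calc _ ≤ ∑ i ∈ I, 729 ^ 2 * ∑ y, N2 i (rs A c y) := by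
          refine Finset.sum_le_sum fun i hi => ?_
          rw [← Finset.sum_filter]
          rcases (I.filter fun k => k ≤ 3 * i ∧ i ≤ 3 * k ∧ j0 < i + k).eq_empty_or_nonempty
            with h0 | ⟨k, hk⟩
          · simp only at h0 ⊢
            rw [h0, Finset.sum_empty, mul_zero]
            exact mul_nonneg (by norm_num) (Finset.sum_nonneg fun _ _ => N2_nonneg _ _)
          · obtain ⟨-, a1, a2, a3⟩ := Finset.mem_filter.1 hk
            exact X2_bound hd (Finset.mem_Icc.1 hi).1 (hyp i k a1 a2 a3) A _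
              fun k hk => (Finset.mem_filter.1 hk).2.1
      _ = 729 ^ 2 * ∑ y, ∑ i ∈ I, N2 i (rs A c y) := by rw [← Finset.mul_sum, Finset.sum_comm]
      _ ≤ 729 ^ 2 * ∑ _y : X → Bool, B * M ^ 2 :=
          mul_le_mul_of_nonneg_left (Finset.sum_le_sum fun y _ =>
            h _ M hM (deg_rs hd A y) (bdd_rs hb A y)) (by norm_num)
      _ = _ := by rw [Finset.sum_const, nsmul_eq_mul, card_cube]; ring
  have h2 : ∀ A : Finset X, ∑ p ∈ Q, X2 c A p.2 p.1 = ∑ p ∈ Q, X2 c A p.1 p.2 := by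
    intro A
    refine Finset.sum_nbij' Prod.swap Prod.swap ?_ ?_ (by simp) (by simp) (by simp)
    all_goals
      intro p hp
      simp only [hQ, Finset.mem_filter, Finset.mem_product, Prod.fst_swap, Prod.snd_swap] at hp ⊢
      exact ⟨⟨hp.1.2, hp.1.1⟩, hp.2.2.1, hp.2.1, by omega⟩
  refine le_of_mul_le_mul_left ?_ hN
  rw [Finset.mul_sum]
  calc _ ≤ ∑ j ∈ Finset.Icc (j0 + 1) J, 100 * ∑ x : X → Bool,
        ∑ p ∈ Q.filter (fun p => p.1 + p.2 = j),
          (X2 c (tr x) p.1 p.2 + X2 c (tr x)ᶜ p.2 p.1) := by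
        refine Finset.sum_le_sum fun j hj => ?_
        obtain ⟨j1, j2⟩ := Finset.mem_Icc.1 hj
        refine level_le c j (by omega) _ (fun p hp => ?_) (fun i k a1 a2 a3 => ?_)
        · simp only [hQ, hI, Finset.mem_filter, Finset.mem_product, Finset.mem_Icc] at hp
          omega
        · simp only [hQ, hI, Finset.mem_filter, Finset.mem_product, Finset.mem_Icc]
          omega
    _ = 100 * ∑ x : X → Bool, ∑ j ∈ Finset.Icc (j0 + 1) J,
        ∑ p ∈ Q.filter (fun p => p.1 + p.2 = j),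
          (X2 c (tr x) p.1 p.2 + X2 c (tr x)ᶜ p.2 p.1) := by
        rw [← Finset.mul_sum, Finset.sum_comm]
    _ ≤ 100 * ∑ _x : X → Bool, 2 * (729 ^ 2 * (B * M ^ 2)) := by
        refine mul_le_mul_of_nonneg_left (Finset.sum_le_sum fun x _ => ?_) (by norm_num)
        refine (Finset.sum_fiberwise_le_sum_of_sum_fiber_nonneg fun _ _ =>
          Finset.sum_nonneg fun _ _ => add_nonneg (X2_nonneg _ _ _ _) (X2_nonneg _ _ _ _)).trans ?_
        rw [Finset.sum_add_distrib, h2]
        linarith [h1 (tr x), h1 (tr x)ᶜ]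
    _ = _ := by rw [Finset.sum_const, nsmul_eq_mul, card_cube]; ring

theorem recur {d j0 : ℕ} (hj0 : 1 ≤ j0)
    (hyp : ∀ i k, k ≤ 3 * i → i ≤ 3 * k → j0 < i + k → Hyp X d i) {β : ℝ} (hβ : 0 ≤ β)
    (h : Phi X d j0 β) (J : ℕ) (hJ : 1 ≤ J) : Phi X d J (β * (J : ℝ) ^ 70) := by
  induction J using Nat.strong_induction_on with
  | _ J ih =>
  intro c M hM hd hb
  have h0 := h c M hM hd hb
  have hJ1 : (1 : ℝ) ≤ J := by exact_mod_cast hJ
  have hβM : 0 ≤ β * M ^ 2 := by positivity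
  by_cases hJ0 : J ≤ j0
  · have : ∑ j ∈ Finset.Icc 1 J, N2 j c ≤ ∑ j ∈ Finset.Icc 1 j0, N2 j c :=
      Finset.sum_le_sum_of_subset_of_nonneg (Finset.Icc_subset_Icc_right hJ0)
        fun _ _ _ => N2_nonneg _ _
    have h1 : (1 : ℝ) ≤ (J : ℝ) ^ 70 := one_le_pow₀ hJ1
    nlinarith
  · have h1 := step hj0 hyp (ih (3 * J / 4) (by omega) (by omega)) c M hM hd hb
    have h2 : Finset.Icc 1 J = Finset.Icc 1 j0 ∪ Finset.Icc (j0 + 1) J := by
      ext j; simp only [Finset.mem_union, Finset.mem_Icc]; omega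
    rw [h2, Finset.sum_union (Finset.disjoint_left.2 fun j a b => by
      simp only [Finset.mem_Icc] at a b; omega)]
    have h3 : ((3 * J / 4 : ℕ) : ℝ) ≤ 3 / 4 * J := by
      have : ((3 * J / 4 : ℕ) : ℝ) ≤ ((3 * J : ℕ) : ℝ) / (4 : ℕ) := Nat.cast_div_le
      push_cast at this
      linarith
    have h4 : ((3 * J / 4 : ℕ) : ℝ) ^ 70 ≤ (3 / 4) ^ 70 * (J : ℝ) ^ 70 := by
      rw [← mul_pow]; exact pow_le_pow_left₀ (by positivity) h3 70
    have h5 : (2 : ℝ) ≤ (J : ℝ) ^ 70 := by
      have : (2 : ℝ) ≤ J := by exact_mod_cast (show 2 ≤ J by omega)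
      exact this.trans (le_self_pow₀ hJ1 (by norm_num))
    have h6 : 200 * 729 ^ 2 * ((3 * J / 4 : ℕ) : ℝ) ^ 70 ≤ 1 / 2 * (J : ℝ) ^ 70 := by
      have : (200 * 729 ^ 2 * (3 / 4) ^ 70 : ℝ) ≤ 1 / 2 := by norm_num
      nlinarith
    have h7 := mul_le_mul_of_nonneg_left h6 hβM
    have h8 := mul_le_mul_of_nonneg_left h5 hβM
    nlinarith

end Pool.Agent.H372Z.BH
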