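import Pool.Agent.H372Z.BH.Main

/-! The Aaronson-Ambainis inequality for homogeneous polynomials with unimodular coefficients. -/

set_option autoImplicit false
set_option linter.unusedSectionVars false

namespace Pool.Agent.H372Z.BH

open Finset Pool.Agent.H562R2

theorem pow_le_choose (n d : ℕ) (h : d ≤ n) : n ^ d ≤ d ^ d * n.choose d := by
  induction d generalizing n with
  | zero => simp
  | succ d ih =>
    obtain ⟨m, rfl⟩ : ∃ m, n = m + 1 := ⟨n - 1, by omega⟩
    have h1 := ih m (by omega)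
    have h2 := Nat.add_one_mul_choose_eq m d
    rcases Nat.eq_zero_or_pos d with rfl | hd
    · simp
    have h3 : (d * (m + 1)) ^ d ≤ (m * (d + 1)) ^ d := Nat.pow_le_pow_left (by nlinarith) d
    rw [mul_pow, mul_pow] at h3
    have h4 : 0 < d ^ d := by positivity
    refine Nat.le_of_mul_le_mul_left ?_ h4
    calc d ^ d * (m + 1) ^ (d + 1) = (d ^ d * (m + 1) ^ d) * (m + 1) := by ring
      _ ≤ (m ^ d * (d + 1) ^ d) * (m + 1) := Nat.mul_le_mul_right _ h3
      _ ≤ (d ^ d * m.choose d * (d + 1) ^ d) * (m + 1) := by gcongr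
      _ = d ^ d * (d + 1) ^ d * ((m + 1) * m.choose d) := by ring
      _ = _ := by rw [h2]; ring

theorem unimod (n d : ℕ) (hd : 1 ≤ d) (hdn : d ≤ n) (c : Finset (Fin n) → ℂ)
    (hc : ∀ S : Finset (Fin n), S.card = d → ‖c S‖ = 1) :
    ∃ x : Fin n → ℤ, (∀ i, x i = 1 ∨ x i = -1) ∧
      Real.sqrt ((n.choose d : ℕ) : ℝ) ≤
        4 * (d : ℝ) ^ (((300 : ℝ) + 1) / (2 * 300 - 2)) * (n : ℝ) ^ (-1 / (2 * (300 : ℝ) - 2)) *
          ‖∑ S ∈ (Finset.univ : Finset (Finset (Fin n))).filter (fun S => S.card = d),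
            c S * ∏ i ∈ S, ((x i : ℤ) : ℂ)‖ := by
  set I := (Finset.univ : Finset (Finset (Fin n))).filter (fun S => S.card = d) with hI
  set F : (Fin n → Bool) → ℂ := fun y => ∑ S ∈ I, c S * (walsh S y : ℂ) with hF
  obtain ⟨y, -, hy⟩ := Finset.exists_max_image Finset.univ (fun y => ‖F y‖) Finset.univ_nonempty
  set M := ‖F y‖ with hM
  have hM0 : 0 ≤ M := norm_nonneg _
  refine ⟨fun i => if y i then -1 else 1, fun i => by cases h : y i <;> simp [h], ?_⟩
  have e0 : ∑ S ∈ I, c S * ∏ i ∈ S, (((if y i then -1 else 1 : ℤ) : ℤ) : ℂ) = F y := by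
    refine Finset.sum_congr rfl fun S _ => ?_
    rw [walsh, Complex.ofReal_prod]
    congr 1
    exact Finset.prod_congr rfl fun i _ => by cases y i <;> simp
  rw [e0, ← hM]
  set u : Finset (Fin n) → ℝ := lev d fun S => (c S).re with hu
  set v : Finset (Fin n) → ℝ := lev d fun S => (c S).im with hv
  have eu : ∀ z, ev u z = (F z).re := by
    intro z
    simp only [hF, hI, Complex.re_sum, Finset.sum_filter, ev, hu, lev]
    exact Finset.sum_congr rfl fun S _ => by split_ifs <;> simp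
  have ev' : ∀ z, ev v z = (F z).im := by
    intro z
    simp only [hF, hI, Complex.im_sum, Finset.sum_filter, ev, hv, lev]
    exact Finset.sum_congr rfl fun S _ => by split_ifs <;> simp
  have bu : Bdd u M := fun z => by
    rw [eu]; exact (Complex.abs_re_le_norm _).trans (hy z (Finset.mem_univ _))
  have bv : Bdd v M := fun z => by
    rw [ev']; exact (Complex.abs_im_le_norm _).trans (hy z (Finset.mem_univ _))
  have hcard : (I.card : ℝ) = n.choose d := by
    have : I = Finset.univ.powersetCard d := by ext S; simp [hI]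
    rw [this, Finset.card_powersetCard, Finset.card_univ, Fintype.card_fin]
  have hsq : ∀ S ∈ I, u S ^ 2 + v S ^ 2 = 1 := by
    intro S hS
    have h1 := (Finset.mem_filter.1 hS).2
    simp only [hu, hv, lev, if_pos h1]
    have := Complex.sq_norm (c S)
    rw [hc S h1, Complex.normSq_apply] at this
    linarith
  set N : ℝ := ((n.choose d : ℕ) : ℝ) with hN
  have d1 : (1 : ℝ) ≤ d := by exact_mod_cast hd
  have dn : (d : ℝ) ≤ n := by exact_mod_cast hdn
  have n0 : (0 : ℝ) < n := by linarith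
  have hNpos : (0 : ℝ) < N := by rw [hN]; exact_mod_cast Nat.choose_pos hdn
  -- the trivial bound
  have t1 : Real.sqrt N ≤ M := by
    have a1 : ∑ z, (ev u z ^ 2 + ev v z ^ 2) ≤ ∑ _z : Fin n → Bool, M ^ 2 :=
      Finset.sum_le_sum fun z _ => by
        rw [eu, ev']
        have := Complex.sq_norm (F z)
        rw [Complex.normSq_apply] at this
        have h2 := pow_le_pow_left₀ (norm_nonneg _) (hy z (Finset.mem_univ _)) 2
        nlinarith
    rw [Finset.sum_add_distrib, sum_ev_sq, sum_ev_sq, Finset.sum_const, nsmul_eq_mul, card_cube,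
      ← mul_add, ← Finset.sum_add_distrib] at a1
    have a2 := le_of_mul_le_mul_left a1 NN_pos
    have a3 : N ≤ ∑ S, (u S ^ 2 + v S ^ 2) := by
      rw [← hcard]
      calc (I.card : ℝ) = ∑ S ∈ I, (u S ^ 2 + v S ^ 2) := by
            rw [Finset.sum_congr rfl hsq]; simp
        _ ≤ _ := Finset.sum_le_sum_of_subset_of_nonneg (Finset.subset_univ _)
            fun _ _ _ => by positivity
    exact Real.sqrt_le_iff.2 ⟨hM0, a3.trans a2⟩
  -- the bound from the Bohnenblust-Hille inequality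
  have t2 : Real.sqrt N * (n : ℝ) ^ (1 / 2 : ℝ) ≤ 4 * (d : ℝ) ^ (143 : ℝ) * M := by
    set q : ℝ := (2 * (d : ℝ)) / ((d : ℝ) + 1) with hq
    have hq0 : 0 < q := by positivity
    have hq2 : q ≤ 2 := by rw [hq, div_le_iff₀ (by positivity)]; linarith
    have ab : ∀ t : ℝ, t ^ 2 ≤ 1 → t ^ 2 ≤ |t| ^ q := by
      intro t ht
      rw [← sq_abs, ← Real.rpow_two]
      exact Real.rpow_le_rpow_of_exponent_ge' (abs_nonneg _) (by
        rw [← sq_abs] at ht; nlinarith [abs_nonneg t]) hq0.le hq2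
    have a1 : N ≤ ∑ S, |u S| ^ q + ∑ S, |v S| ^ q := by
      rw [← Finset.sum_add_distrib, ← hcard]
      calc (I.card : ℝ) = ∑ S ∈ I, (u S ^ 2 + v S ^ 2) := by
            rw [Finset.sum_congr rfl hsq]; simp
        _ ≤ ∑ S ∈ I, (|u S| ^ q + |v S| ^ q) := Finset.sum_le_sum fun S hS => by
            have := hsq S hS
            exact add_le_add (ab _ (by nlinarith [sq_nonneg (v S)]))
              (ab _ (by nlinarith [sq_nonneg (u S)]))
        _ ≤ _ := Finset.sum_le_sum_of_subset_of_nonneg (Finset.subset_univ _)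
            fun _ _ _ => by positivity
    set p : ℝ := ((d : ℝ) + 1) / (2 * (d : ℝ)) with hp
    have hp0 : 0 < p := by positivity
    have hp1 : p ≤ 1 := by rw [hp, div_le_one (by positivity)]; linarith
    have a2 : (N / 2) ^ p ≤ (d : ℝ) ^ (142 : ℝ) * M := by
      rcases le_total (∑ S, |u S| ^ q) (∑ S, |v S| ^ q) with h | h
      · exact (Real.rpow_le_rpow (by positivity) (by linarith) hp0.le).trans
          (bh hd (deg_lev d _ le_rfl) bv)
      · exact (Real.rpow_le_rpow (by positivity) (by linarith) hp0.le).trans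
          (bh hd (deg_lev d _ le_rfl) bu)
    have a3 : N ^ p ≤ 2 * (N / 2) ^ p := by
      rw [Real.div_rpow hNpos.le (by norm_num), ← mul_div_assoc, le_div_iff₀ (by positivity)]
      have : (2 : ℝ) ^ p ≤ 2 ^ (1 : ℝ) := Real.rpow_le_rpow_of_exponent_le (by norm_num) hp1
      rw [Real.rpow_one] at this
      nlinarith [Real.rpow_nonneg hNpos.le p]
    have a4 : (n : ℝ) ^ (1 / 2 : ℝ) ≤ (d : ℝ) ^ (1 / 2 : ℝ) * N ^ (1 / (2 * (d : ℝ))) := by
      have b1 : (n : ℝ) ^ d ≤ (d : ℝ) ^ d * N := by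
        rw [hN]; exact_mod_cast pow_le_choose n d hdn
      have b2 := Real.rpow_le_rpow (by positivity) b1 (show 0 ≤ 1 / (2 * (d : ℝ)) by positivity)
      rw [Real.mul_rpow (by positivity) hNpos.le, ← Real.rpow_natCast, ← Real.rpow_natCast,
        ← Real.rpow_mul n0.le, ← Real.rpow_mul (by positivity),
        show (d : ℝ) * (1 / (2 * (d : ℝ))) = 1 / 2 by field_simp] at b2
      exact b2
    have a5 : Real.sqrt N * N ^ (1 / (2 * (d : ℝ))) = N ^ p := by
      rw [Real.sqrt_eq_rpow, ← Real.rpow_add hNpos, hp]; congr 1; field_simp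
    have a6 : (d : ℝ) ^ (1 / 2 : ℝ) * (d : ℝ) ^ (142 : ℝ) ≤ (d : ℝ) ^ (143 : ℝ) := by
      rw [← Real.rpow_add (by linarith)]
      exact Real.rpow_le_rpow_of_exponent_le d1 (by norm_num)
    have a7 : 0 ≤ (d : ℝ) ^ (1 / 2 : ℝ) := by positivity
    calc Real.sqrt N * (n : ℝ) ^ (1 / 2 : ℝ)
        ≤ Real.sqrt N * ((d : ℝ) ^ (1 / 2 : ℝ) * N ^ (1 / (2 * (d : ℝ)))) := by gcongr
      _ = (d : ℝ) ^ (1 / 2 : ℝ) * N ^ p := by rw [← a5]; ring
      _ ≤ (d : ℝ) ^ (1 / 2 : ℝ) * (2 * ((d : ℝ) ^ (142 : ℝ) * M)) := by gcongr; linarith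
      _ = 2 * ((d : ℝ) ^ (1 / 2 : ℝ) * (d : ℝ) ^ (142 : ℝ)) * M := by ring
      _ ≤ 4 * (d : ℝ) ^ (143 : ℝ) * M := by
          have : 0 ≤ (d : ℝ) ^ (143 : ℝ) := by positivity
          gcongr; norm_num
  have d0 : (0 : ℝ) < d := by linarith
  rw [show ((300 : ℝ) + 1) / (2 * 300 - 2) = 301 * (1 / 598) by norm_num,
    show (-1 / (2 * (300 : ℝ) - 2)) = -(1 / 598) by norm_num, Real.rpow_neg n0.le]
  have pn : 0 < (n : ℝ) ^ (1 / 598 : ℝ) := by positivity
  rcases le_total (n : ℝ) ((d : ℝ) ^ (301 : ℝ)) with h | h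
  · have b1 := Real.rpow_le_rpow n0.le h (show (0 : ℝ) ≤ 1 / 598 by norm_num)
    rw [← Real.rpow_mul d0.le] at b1
    have b2 : 1 ≤ (d : ℝ) ^ (301 * (1 / 598) : ℝ) * ((n : ℝ) ^ (1 / 598 : ℝ))⁻¹ := by
      rw [← div_eq_mul_inv, one_le_div pn]; exact b1
    nlinarith
  · have b1 := Real.rpow_le_rpow (by positivity) h (show (0 : ℝ) ≤ 298 / 598 by norm_num)
    rw [← Real.rpow_mul d0.le] at b1
    have b2 : (d : ℝ) ^ (143 : ℝ) ≤ (d : ℝ) ^ (301 * (298 / 598) : ℝ) :=
      Real.rpow_le_rpow_of_exponent_le d1 (by norm_num)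
    have b3 : (n : ℝ) ^ (1 / 2 : ℝ) = (n : ℝ) ^ (298 / 598 : ℝ) * (n : ℝ) ^ (1 / 598 : ℝ) := by
      rw [← Real.rpow_add n0]; norm_num
    have b4 : 1 ≤ (d : ℝ) ^ (301 * (1 / 598) : ℝ) := Real.one_le_rpow d1 (by norm_num)
    have pm : 0 < (n : ℝ) ^ (298 / 598 : ℝ) := by positivity
    have b5 : Real.sqrt N * (n : ℝ) ^ (1 / 598 : ℝ) ≤ 4 * M := by
      refine le_of_mul_le_mul_right ?_ pm
      rw [b3] at t2
      have : 4 * (d : ℝ) ^ (143 : ℝ) * M ≤ 4 * (n : ℝ) ^ (298 / 598 : ℝ) * M := by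
        gcongr; exact b2.trans b1
      linarith
    have b6 : Real.sqrt N ≤ 4 * ((n : ℝ) ^ (1 / 598 : ℝ))⁻¹ * M := by
      rw [mul_comm 4, mul_assoc, ← div_eq_inv_mul, le_div_iff₀ pn]; exact b5
    have b7 : 0 ≤ ((n : ℝ) ^ (1 / 598 : ℝ))⁻¹ * M := by positivity
    nlinarith

end Pool.Agent.H372Z.BH
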